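import Mathlib
import Pool.Agent.H23.L.W.Count
import Pool.Agent.H23.EV.GCr

set_option autoImplicit false
set_option linter.unusedSectionVars false

/-!
The group: orbits `ZMod (μ x) × A x`, where `A x` is an elementary abelian `p`-group.
-/

namespace Pool.Agent.H23.EW

open Finset Pool.Agent.H98R2.Ev Pool.Agent.TH410.KV
open Pool.Agent.H98R2.Nb (Inv Has)

section Dat

variable {X : Type} (μ : X → ℕ) (A : X → Type)

/-- the vertex set -/
abbrev VV : Type := Σ x : X, ZMod (μ x) × A x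

/-- the coarse positions -/
abbrev CP : Type := Σ x : X, ZMod (μ x)

variable {μ A}

/-- the coarse position of a vertex -/
def kap (v : VV μ A) : CP μ := ⟨v.1, v.2.1⟩

variable [∀ x, AddCommGroup (A x)]

/-- translations -/
def ta (t : ∀ x, ZMod (μ x) → A x) : Equiv.Perm (VV μ A) :=
  Equiv.sigmaCongrRight fun x =>
    Equiv.prodShear (Equiv.refl _) (fun j => Equiv.addRight (t x j))

/-- the twist -/
def gm (γ : ∀ x, A x ≃+ A x) (x : X) (j : ZMod (μ x)) : A x ≃+ A x :=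
  if j = 0 then γ x else AddEquiv.refl _

/-- the cyclic element -/
def cc (γ : ∀ x, A x ≃+ A x) : Equiv.Perm (VV μ A) :=
  Equiv.sigmaCongrRight fun x =>
    Equiv.prodShear (Equiv.addRight 1) (fun j => (gm (μ := μ) γ x j).toEquiv)

/-- the element of `q`-power order -/
def hh (u : ∀ x, (ZMod (μ x))ˣ) : Equiv.Perm (VV μ A) :=
  Equiv.sigmaCongrRight fun x =>
    Equiv.prodShear (Units.mulLeft (u x)) (fun _ => Equiv.refl _)

theorem ta_mk (t : ∀ x, ZMod (μ x) → A x) (x : X) (j : ZMod (μ x)) (a : A x) :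
    ta t ⟨x, (j, a)⟩ = ⟨x, (j, a + t x j)⟩ := rfl

theorem cc_mk (γ : ∀ x, A x ≃+ A x) (x : X) (j : ZMod (μ x)) (a : A x) :
    cc γ ⟨x, (j, a)⟩ = ⟨x, (j + 1, gm γ x j a)⟩ := rfl

theorem hh_mk (u : ∀ x, (ZMod (μ x))ˣ) (x : X) (j : ZMod (μ x)) (a : A x) :
    hh u ⟨x, (j, a)⟩ = ⟨x, ((u x : ZMod (μ x)) * j, a)⟩ := rfl

theorem ta_fst (t : ∀ x, ZMod (μ x) → A x) (v : VV μ A) : (ta t v).1 = v.1 := rfl
theorem cc_fst (γ : ∀ x, A x ≃+ A x) (v : VV μ A) : (cc γ v).1 = v.1 := rfl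
theorem hh_fst (u : ∀ x, (ZMod (μ x))ˣ) (v : VV μ A) : (hh u v).1 = v.1 := rfl

theorem ta_comm (t t' : ∀ x, ZMod (μ x) → A x) : ta t * ta t' = ta t' * ta t := by
  apply Equiv.ext
  rintro ⟨x, j, a⟩
  rw [Equiv.Perm.mul_apply, Equiv.Perm.mul_apply, ta_mk, ta_mk, ta_mk, ta_mk, add_right_comm]

theorem ta_pow_mk (t : ∀ x, ZMod (μ x) → A x) (n : ℕ) (x : X) (j : ZMod (μ x)) (a : A x) :
    (ta t ^ n) ⟨x, (j, a)⟩ = ⟨x, (j, a + n • t x j)⟩ := by
  induction n with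
  | zero => rw [pow_zero, Equiv.Perm.one_apply, zero_smul, add_zero]
  | succ n ih => rw [pow_succ', Equiv.Perm.mul_apply, ih, ta_mk, add_assoc, succ_nsmul]

theorem ta_pow (p : ℕ) (hp : ∀ x (a : A x), p • a = 0) (t : ∀ x, ZMod (μ x) → A x) :
    ta t ^ p = 1 := by
  apply Equiv.ext
  rintro ⟨x, j, a⟩
  rw [ta_pow_mk, hp, add_zero, Equiv.Perm.one_apply]

theorem cc_ta (γ : ∀ x, A x ≃+ A x) (t : ∀ x, ZMod (μ x) → A x) :
    (cc γ)⁻¹ * ta t * cc γ = ta (fun x j => (gm γ x j).symm (t x (j + 1))) := by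
  rw [mul_assoc, inv_mul_eq_iff_eq_mul]
  apply Equiv.ext
  rintro ⟨x, j, a⟩
  rw [Equiv.Perm.mul_apply, Equiv.Perm.mul_apply, cc_mk, ta_mk, ta_mk, cc_mk, map_add,
    AddEquiv.apply_symm_apply]

theorem hh_ta (u : ∀ x, (ZMod (μ x))ˣ) (t : ∀ x, ZMod (μ x) → A x) :
    (hh u)⁻¹ * ta t * hh u = ta (fun x j => t x ((u x : ZMod (μ x)) * j)) := by
  rw [mul_assoc, inv_mul_eq_iff_eq_mul]
  apply Equiv.ext
  rintro ⟨x, j, a⟩
  rw [Equiv.Perm.mul_apply, Equiv.Perm.mul_apply, hh_mk, ta_mk, ta_mk, hh_mk]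

theorem hh_pow_mk (u : ∀ x, (ZMod (μ x))ˣ) (n : ℕ) (x : X) (j : ZMod (μ x)) (a : A x) :
    ((hh u : Equiv.Perm (VV μ A)) ^ n) ⟨x, (j, a)⟩ =
      ⟨x, (((u x ^ n : (ZMod (μ x))ˣ) : ZMod (μ x)) * j, a)⟩ := by
  induction n with
  | zero => rw [pow_zero, pow_zero, Equiv.Perm.one_apply, Units.val_one, one_mul]
  | succ n ih => rw [pow_succ', Equiv.Perm.mul_apply, ih, hh_mk, pow_succ' (u x), Units.val_mul,
      mul_assoc]

theorem hh_pow (u : ∀ x, (ZMod (μ x))ˣ) (n : ℕ) (hu : ∀ x, u x ^ n = 1) :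
    (hh u : Equiv.Perm (VV μ A)) ^ n = 1 := by
  apply Equiv.ext
  rintro ⟨x, j, a⟩
  rw [hh_pow_mk, hu, Units.val_one, one_mul, Equiv.Perm.one_apply]

/-- powers of the cyclic element -/
theorem cc_pow_mk (γ : ∀ x, A x ≃+ A x) (n : ℕ) (x : X) (j : ZMod (μ x)) (a : A x) :
    ((cc γ : Equiv.Perm (VV μ A)) ^ n) ⟨x, (j, a)⟩ =
      ⟨x, (j + n, (γ x)^[((range n).filter (fun i : ℕ => j + (i : ZMod (μ x)) = 0)).card] a)⟩ := by
  induction n with
  | zero => simp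
  | succ n ih =>
    rw [pow_succ', Equiv.Perm.mul_apply, ih, cc_mk, Finset.range_add_one, Finset.filter_insert]
    unfold gm
    by_cases h : j + (n : ZMod (μ x)) = 0
    · rw [if_pos h, if_pos h, Finset.card_insert_of_notMem (by simp),
        Function.iterate_succ_apply']
      push_cast
      rw [add_assoc]
    · rw [if_neg h, if_neg h]
      push_cast
      rw [add_assoc]
      rfl

theorem kap_cc_pow (γ : ∀ x, A x ≃+ A x) (n : ℕ) (v : VV μ A) :
    kap (((cc γ : Equiv.Perm (VV μ A)) ^ n) v) = ⟨v.1, v.2.1 + n⟩ := by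
  obtain ⟨x, j, a⟩ := v
  rw [cc_pow_mk]
  rfl

/-- some power of the cyclic element is the twist -/
theorem exists_mul (γ : ∀ x, A x ≃+ A x) (x : X) (hx : NeZero (μ x)) :
    ∃ n : ℕ, ∀ (j : ZMod (μ x)) (a : A x),
      ((cc γ : Equiv.Perm (VV μ A)) ^ n) ⟨x, (j, a)⟩ = ⟨x, (j, γ x a)⟩ := by
  refine ⟨μ x, fun j a => ?_⟩
  rw [cc_pow_mk, ZMod.natCast_self, add_zero]
  have h : (range (μ x)).filter (fun i : ℕ => j + (i : ZMod (μ x)) = 0) = {(-j).val} := by
    ext i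
    rw [mem_filter, mem_range, mem_singleton]
    constructor
    · rintro ⟨hi, h⟩
      have h1 : (i : ZMod (μ x)) = -j := by
        rw [eq_neg_iff_add_eq_zero, add_comm]
        exact h
      rw [← h1, ZMod.val_natCast, Nat.mod_eq_of_lt hi]
    · rintro rfl
      exact ⟨ZMod.val_lt _, by rw [ZMod.natCast_zmod_val, add_neg_cancel]⟩
  rw [h, card_singleton, Function.iterate_one]

theorem inv_pow {V : Type} {c : Equiv.Perm V} {G : SimpleGraph V} (h : Inv c G) (n : ℕ) :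
    Inv (c ^ n) G := by
  induction n with
  | zero => exact fun x y h => h
  | succ n ih =>
    intro x y hxy
    rw [pow_succ', Equiv.Perm.mul_apply, Equiv.Perm.mul_apply]
    exact h _ _ (ih x y hxy)

/-- an edge inside a coarse position of an invariant graph gives all edges there -/
theorem clique_of_edge (γ : ∀ x, A x ≃+ A x) (x : X) (hx : NeZero (μ x))
    (hgen : ∀ a b : A x, a ≠ 0 → b ≠ 0 → ∃ n : ℕ, (γ x)^[n] a = b) [DecidableEq X]
    (G : SimpleGraph (VV μ A)) (ha : ∀ t, Inv (ta t) G) (hc : Inv (cc γ) G)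
    (j : ZMod (μ x)) (y z : A x) (hyz : G.Adj ⟨x, (j, y)⟩ ⟨x, (j, z)⟩) (a b : A x)
    (hab : a ≠ b) : G.Adj ⟨x, (j, a)⟩ ⟨x, (j, b)⟩ := by
  classical
  have h1 : ∀ (t y z : A x), G.Adj ⟨x, (j, y)⟩ ⟨x, (j, z)⟩ →
      G.Adj ⟨x, (j, y + t)⟩ ⟨x, (j, z + t)⟩ := by
    intro t y z h
    have h2 := ha (Function.update (fun _ _ => 0) x (fun _ => t)) _ _ h
    rwa [ta_mk, ta_mk, Function.update_self] at h2
  obtain ⟨n, hn⟩ := exists_mul (μ := μ) γ x hx
  have h2 : ∀ (u : ℕ) (y z : A x), G.Adj ⟨x, (j, y)⟩ ⟨x, (j, z)⟩ →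
      G.Adj ⟨x, (j, (γ x)^[u] y)⟩ ⟨x, (j, (γ x)^[u] z)⟩ := by
    intro u y z h
    induction u with
    | zero => exact h
    | succ u ih =>
      have h3 := inv_pow hc n _ _ ih
      rw [hn, hn] at h3
      rw [Function.iterate_succ_apply', Function.iterate_succ_apply']
      exact h3
  have hne : y ≠ z := by
    rintro rfl
    exact G.irrefl hyz
  have h3 : G.Adj ⟨x, (j, y - z)⟩ ⟨x, (j, 0)⟩ := by
    have h4 := h1 (-z) _ _ hyz
    rwa [← sub_eq_add_neg, add_neg_cancel] at h4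
  obtain ⟨u, hu⟩ := hgen (y - z) (a - b) (sub_ne_zero.2 hne) (sub_ne_zero.2 hab)
  have h0 : (γ x)^[u] (0 : A x) = 0 := by
    clear hu
    induction u with
    | zero => rfl
    | succ u ih => rw [Function.iterate_succ_apply', ih, map_zero]
  have h5 := h2 u _ _ h3
  rw [hu, h0] at h5
  have h6 := h1 b _ _ h5
  rwa [sub_add_cancel, zero_add] at h6

/-- a vertex can be moved inside its coarse position -/
theorem mvk (G : SimpleGraph (VV μ A)) (ha : ∀ t, Inv (ta t) G)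
    (v w v' : VV μ A) (hb : kap v' = kap v) (hvw : kap v ≠ kap w) (h : G.Adj v w) :
    G.Adj v' w := by
  classical
  obtain ⟨x, j, a⟩ := v
  obtain ⟨x', j', a'⟩ := v'
  obtain ⟨y, k, c⟩ := w
  unfold kap at hb hvw
  simp only at hb hvw
  rw [Sigma.mk.injEq] at hb
  obtain ⟨hx, hj⟩ := hb
  subst hx
  have hj' := eq_of_heq hj
  subst hj'
  have h1 := ha (Function.update (fun _ _ => 0) x' (Function.update (fun _ => 0) j' (a' - a)))
    _ _ h
  rw [ta_mk, ta_mk, Function.update_self, Function.update_self, add_sub_cancel] at h1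
  by_cases hy : y = x'
  · subst hy
    have hk : k ≠ j' := fun hk => hvw (by rw [hk])
    rwa [Function.update_self, Function.update_of_ne hk, add_zero] at h1
  · rwa [Function.update_of_ne hy, add_zero] at h1

theorem fullk (G : SimpleGraph (VV μ A)) (ha : ∀ t, Inv (ta t) G)
    (v w v' w' : VV μ A) (hv : kap v' = kap v) (hw : kap w' = kap w)
    (hvw : kap v ≠ kap w) (h : G.Adj v w) : G.Adj v' w' := by
  have h1 := mvk G ha v w v' hv hvw h
  have h2 := mvk G ha w v' w' hw (by rw [hv]; exact hvw.symm) h1.symm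
  exact h2.symm

end Dat

end Pool.Agent.H23.EW
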