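import Mathlib
import Pool.Agent.H23.EV.Rot
import Pool.Agent.H23.EW.Dat

set_option autoImplicit false
set_option linter.unusedSectionVars false

/-!
The structure of the invariant graphs.
-/

namespace Pool.Agent.H23.EW

open Finset Pool.Agent.H98R2.Ev Pool.Agent.TH410.KV
open Pool.Agent.H98R2.Nb (Inv Has)

section Str

variable {X : Type} [Fintype X] [DecidableEq X] {μ : X → ℕ} {A : X → Type}
  [∀ x, AddCommGroup (A x)]

/-- simultaneous congruences are solvable -/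
def CRT (μ : X → ℕ) : Prop := ∀ e : ∀ x, ZMod (μ x), ∃ k : ℕ, ∀ x, (k : ZMod (μ x)) = e x

/-- adjacency of vertices in different orbits depends only on the orbits -/
theorem unif (hcrt : CRT μ) (γ : ∀ x, A x ≃+ A x) (G : SimpleGraph (VV μ A))
    (ha : ∀ t, Inv (ta t) G) (hc : Inv (cc γ) G) (v w v' w' : VV μ A)
    (hv : v'.1 = v.1) (hw : w'.1 = w.1) (hvw : v.1 ≠ w.1) (h : G.Adj v w) :
    G.Adj v' w' := by
  classical
  obtain ⟨x, j, a⟩ := v
  obtain ⟨x', j', a'⟩ := v'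
  obtain ⟨y, k, c⟩ := w
  obtain ⟨y', k', c'⟩ := w'
  simp only at hv hw hvw
  subst hv hw
  obtain ⟨n, hn⟩ := hcrt (Function.update (Function.update (fun _ => 0) y' (k' - k)) x' (j' - j))
  have h1 := hn x'
  have h2 := hn y'
  rw [Function.update_self] at h1
  rw [Function.update_of_ne hvw.symm, Function.update_self] at h2
  have e1 : kap (((cc γ : Equiv.Perm (VV μ A)) ^ n) ⟨x', (j, a)⟩) = ⟨x', j'⟩ := by
    rw [kap_cc_pow]
    simp only [h1, add_sub_cancel]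
  have e2 : kap (((cc γ : Equiv.Perm (VV μ A)) ^ n) ⟨y', (k, c)⟩) = ⟨y', k'⟩ := by
    rw [kap_cc_pow]
    simp only [h2, add_sub_cancel]
  refine fullk G ha _ _ _ _ ?_ ?_ ?_ (inv_pow hc n _ _ h)
  · rw [e1]
    rfl
  · rw [e2]
    rfl
  · rw [e1, e2]
    intro h3
    rw [Sigma.mk.injEq] at h3
    exact hvw h3.1

/-- the conjugate of the cyclic element preserves the invariant graphs -/
theorem inv_conj (hμ : ∀ x, NeZero (μ x)) (hcrt : CRT μ) (γ : ∀ x, A x ≃+ A x)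
    (hgen : ∀ x, ∀ a b : A x, a ≠ 0 → b ≠ 0 → ∃ n : ℕ, (γ x)^[n] a = b)
    (u : ∀ x, (ZMod (μ x))ˣ) (G : SimpleGraph (VV μ A)) (ha : ∀ t, Inv (ta t) G)
    (hc : Inv (cc γ) G) : Inv ((hh u : Equiv.Perm (VV μ A))⁻¹ * cc γ * hh u) G := by
  classical
  intro v w hvw
  set d : Equiv.Perm (VV μ A) := (hh u : Equiv.Perm (VV μ A))⁻¹ * cc γ * hh u with hd
  obtain ⟨n, hn⟩ := hcrt (fun x => (((u x)⁻¹ : (ZMod (μ x))ˣ) : ZMod (μ x)))
  have hdv : ∀ (x : X) (j : ZMod (μ x)) (a : A x), d ⟨x, (j, a)⟩ =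
      ⟨x, (j + (((u x)⁻¹ : (ZMod (μ x))ˣ) : ZMod (μ x)),
        gm γ x ((u x : ZMod (μ x)) * j) a)⟩ := by
    intro x j a
    rw [hd, Equiv.Perm.mul_apply, Equiv.Perm.mul_apply, Equiv.Perm.inv_def,
      Equiv.symm_apply_eq, hh_mk, cc_mk, hh_mk, mul_add, Units.mul_inv]
  have hkap : ∀ v, kap (d v) = kap (((cc γ : Equiv.Perm (VV μ A)) ^ n) v) := by
    rintro ⟨x, j, a⟩
    rw [kap_cc_pow, hdv]
    simp only [hn]
    rfl
  have hadj := inv_pow hc n _ _ hvw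
  by_cases hne : kap (d v) = kap (d w)
  · -- the same coarse position
    have hdvw : d v ≠ d w := fun h => hvw.ne (d.injective h)
    have h1 := hkap v
    have h2 := hkap w
    rcases hx : d v with ⟨x, j, a⟩
    rcases hy : d w with ⟨y, k, c⟩
    rcases hx' : ((cc γ : Equiv.Perm (VV μ A)) ^ n) v with ⟨x', j', a'⟩
    rcases hy' : ((cc γ : Equiv.Perm (VV μ A)) ^ n) w with ⟨y', k', c'⟩
    rw [hx, hx'] at h1
    rw [hy, hy'] at h2
    rw [hx, hy] at hne hdvw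
    rw [hx', hy'] at hadj
    unfold kap at h1 h2 hne
    simp only at h1 h2 hne
    rw [Sigma.mk.injEq] at h1 h2 hne
    obtain ⟨rfl, h1⟩ := h1
    obtain ⟨rfl, h2⟩ := h2
    obtain ⟨rfl, h3⟩ := hne
    have h1' := eq_of_heq h1
    have h2' := eq_of_heq h2
    have h3' := eq_of_heq h3
    subst h1' h2' h3'
    refine clique_of_edge γ x (hμ x) (hgen x) G ha hc j a' c' hadj a c ?_
    rintro rfl
    exact hdvw rfl
  · exact fullk G ha _ _ _ _ (hkap v) (hkap w) (by rw [← hkap, ← hkap]; exact hne) hadj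

/-- an edge between different coarse positions of an orbit gives all of them -/
theorem orbit_full (hμ : ∀ x, NeZero (μ x)) (γ : ∀ x, A x ≃+ A x)
    (u : ∀ x, (ZMod (μ x))ˣ)
    (hu : ∀ x, ∀ d d' : ZMod (μ x), d ≠ 0 → d' ≠ 0 →
      ∃ k : ℕ, d' = (u x : ZMod (μ x)) ^ k * d ∨ d' = -((u x : ZMod (μ x)) ^ k * d))
    (G : SimpleGraph (VV μ A)) (ha : ∀ t, Inv (ta t) G)
    (hc : Inv (cc γ) G) (hh' : Inv (hh u) G) (v w v' w' : VV μ A) (hv : v'.1 = v.1)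
    (hw : w'.1 = w.1) (hvw : v.1 = w.1) (hk : kap v ≠ kap w) (hk' : kap v' ≠ kap w')
    (h : G.Adj v w) : G.Adj v' w' := by
  classical
  obtain ⟨x, j, a⟩ := v
  obtain ⟨x', j', a'⟩ := v'
  obtain ⟨y, k, c⟩ := w
  obtain ⟨y', k', c'⟩ := w'
  simp only at hv hw hvw
  subst hv hw hvw
  have hk2 : j' ≠ k' := by
    rintro rfl
    exact hk' rfl
  let ψ : ZMod (μ x') ⊕ Empty → VV μ A := fun z => z.elim (fun y => ⟨x', (y, 0)⟩)
    (fun e => e.elim)
  have h0 : G.Adj ⟨x', (j, 0)⟩ ⟨x', (k, 0)⟩ :=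
    fullk G ha ⟨x', (j, a)⟩ ⟨x', (k, c)⟩ _ _ rfl rfl hk h
  have h1 : (G.comap ψ).Adj (Sum.inl j') (Sum.inl k') := by
    refine Pool.Agent.H23.EV.compl_of (J := Empty) (hμ x') (u x') (hu x') (G.comap ψ)
      ?_ ?_ j k h0 j' k' hk2
    · rintro (y | e) (y' | e') h
      · have h2 := hc _ _ (show G.Adj ⟨x', (y, 0)⟩ ⟨x', (y', 0)⟩ from h)
        rw [cc_mk, cc_mk, map_zero, map_zero] at h2
        exact h2
      · exact e'.elim
      · exact e.elim
      · exact e.elim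
    · rintro (y | e) (y' | e') h
      · exact hh' _ _ (show G.Adj ⟨x', (y, 0)⟩ ⟨x', (y', 0)⟩ from h)
      · exact e'.elim
      · exact e.elim
      · exact e.elim
  refine fullk G ha ⟨x', (j', 0)⟩ ⟨x', (k', 0)⟩ _ _ rfl rfl ?_ h1
  intro h2
  unfold kap at h2
  simp only at h2
  rw [Sigma.mk.injEq] at h2
  exact hk2 (eq_of_heq h2.2)

variable {𝓕 : Pool.Agent.TH410.KV.Fam}

theorem has_of_complete {V : Type} {G : SimpleGraph V} (F' : 𝓕) (φ : Fin F'.1.1 ↪ V)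
    (h : ∀ i j, i ≠ j → G.Adj (φ i) (φ j)) : Has 𝓕 G :=
  ⟨F'.1, F'.2, ⟨⟨⟨φ, fun {i j} hij => h i j hij.ne⟩, φ.injective⟩⟩⟩

/-- no edges inside a coarse position -/
theorem no_inner (hμ : ∀ x, NeZero (μ x)) (γ : ∀ x, A x ≃+ A x)
    (hgen : ∀ x, ∀ a b : A x, a ≠ 0 → b ≠ 0 → ∃ n : ℕ, (γ x)^[n] a = b)
    (F' : 𝓕) (hA : ∀ x, Subsingleton (A x) ∨ Nonempty (Fin F'.1.1 ↪ A x))
    (G : SimpleGraph (VV μ A)) (hG : ¬ Has 𝓕 G) (ha : ∀ t, Inv (ta t) G)
    (hc : Inv (cc γ) G) (v w : VV μ A) (hk : kap v = kap w) : ¬ G.Adj v w := by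
  intro hadj
  obtain ⟨x, j, a⟩ := v
  obtain ⟨y, k, c⟩ := w
  unfold kap at hk
  simp only at hk
  rw [Sigma.mk.injEq] at hk
  obtain ⟨rfl, hk⟩ := hk
  have hk' := eq_of_heq hk
  subst hk'
  rcases hA x with h1 | ⟨⟨φ⟩⟩
  · have : a = c := Subsingleton.elim _ _
    subst this
    exact G.irrefl hadj
  · apply hG
    refine has_of_complete F' ⟨fun i => ⟨x, (j, φ i)⟩, fun i i' h => ?_⟩ fun i i' h => ?_
    · simp only [Sigma.mk.injEq, heq_eq_eq, Prod.mk.injEq, true_and] at h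
      exact φ.injective h
    · exact clique_of_edge γ x (hμ x) (hgen x) G ha hc j a c hadj _ _
        (fun h' => h (φ.injective h'))

/-- no edges inside an orbit which contains a member -/
theorem no_orbit (hμ : ∀ x, NeZero (μ x)) (γ : ∀ x, A x ≃+ A x)
    (u : ∀ x, (ZMod (μ x))ˣ)
    (hu : ∀ x, ∀ d d' : ZMod (μ x), d ≠ 0 → d' ≠ 0 →
      ∃ k : ℕ, d' = (u x : ZMod (μ x)) ^ k * d ∨ d' = -((u x : ZMod (μ x)) ^ k * d))
    (F' : 𝓕) (x : X) (hx : μ x = 1 ∨ F'.1.1 ≤ μ x)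
    (G : SimpleGraph (VV μ A)) (hG : ¬ Has 𝓕 G) (ha : ∀ t, Inv (ta t) G)
    (hc : Inv (cc γ) G) (hh' : Inv (hh u) G) (v w : VV μ A) (hk : kap v ≠ kap w)
    (hv : v.1 = x) (hw : w.1 = x) : ¬ G.Adj v w := by
  intro hadj
  rcases hx with hx | hx
  · obtain ⟨y, j, a⟩ := v
    obtain ⟨z, k, c⟩ := w
    simp only at hv hw
    subst hv
    subst hw
    apply hk
    have h1 : Subsingleton (ZMod (μ z)) := by
      rw [hx]
      infer_instance
    have : j = k := Subsingleton.elim _ _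
    rw [this]
    rfl
  · apply hG
    have : NeZero (μ x) := hμ x
    have hcast : ∀ i j : Fin F'.1.1, ((i : ℕ) : ZMod (μ x)) = ((j : ℕ) : ZMod (μ x)) → i = j := by
      intro i j hij
      have h1 := congrArg ZMod.val hij
      rw [ZMod.val_natCast, ZMod.val_natCast, Nat.mod_eq_of_lt (lt_of_lt_of_le i.2 hx),
        Nat.mod_eq_of_lt (lt_of_lt_of_le j.2 hx)] at h1
      exact Fin.ext h1
    refine has_of_complete F' ⟨fun i => ⟨x, (((i : ℕ) : ZMod (μ x)), 0)⟩, fun i i' h => ?_⟩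
      fun i i' h => ?_
    · simp only [Sigma.mk.injEq, heq_eq_eq, Prod.mk.injEq, true_and, and_true] at h
      exact hcast _ _ h
    · refine orbit_full hμ γ u hu G ha hc hh' v w _ _ hv.symm hw.symm (hv.trans hw.symm) hk ?_ hadj
      intro h2
      change (⟨x, ((i : ℕ) : ZMod (μ x))⟩ : CP μ) = ⟨x, ((i' : ℕ) : ZMod (μ x))⟩ at h2
      rw [Sigma.mk.injEq] at h2
      exact h (hcast _ _ (eq_of_heq h2.2))

end Str

end Pool.Agent.H23.EW
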