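import Mathlib
import Pool.Agent.H23.EW.Str

set_option autoImplicit false
set_option linter.unusedSectionVars false

/-!
The block graphs, and the identity that holds if containing a member is not evasive.
-/

namespace Pool.Agent.H23.EW

open Finset Pool.Agent.H98R2.Ev Pool.Agent.TH410.KV
open Pool.Agent.H98R2.Nb (Inv Has)
open Pool.Agent.W5h82.Ev (StableAt has_mono has_of_hom)

section Cnt

variable {X : Type} [Fintype X] [DecidableEq X] {μ : X → ℕ} (R : Finset X)

theorem memf {α : Type} {p : α → Prop} (i : DecidablePred p) {s : Finset α} {a : α}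
    (h : a ∈ @Finset.filter α p i s) : a ∈ s ∧ p a := Finset.mem_filter.1 h

/-- the graph on the coarse positions given by a graph on the orbits and flags -/
def Gf (B : Finset (EV X)) (f : Finset X) : SimpleGraph (CP μ) where
  Adj P Q := (toG B).Adj P.1 Q.1 ∨ (P ≠ Q ∧ P.1 = Q.1 ∧ P.1 ∈ f)
  symm := ⟨by
    rintro P Q (h | ⟨h1, h2, h3⟩)
    · exact Or.inl h.symm
    · exact Or.inr ⟨h1.symm, h2.symm, by rw [← h2]; exact h3⟩⟩
  loopless := ⟨by
    rintro P (h | ⟨h1, _, _⟩)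
    · exact (toG B).loopless.irrefl _ h
    · exact h1 rfl⟩

theorem Gf_adj (B : Finset (EV X)) (f : Finset X) (P Q : CP μ) :
    (Gf B f).Adj P Q ↔ (toG B).Adj P.1 Q.1 ∨ (P ≠ Q ∧ P.1 = Q.1 ∧ P.1 ∈ f) := Iff.rfl

/-- the flags -/
def fl (S : Finset (EV X ⊕ {x // x ∈ R})) : Finset X := S.toRight.map (Function.Embedding.subtype _)

theorem mem_fl (S : Finset (EV X ⊕ {x // x ∈ R})) (x : X) :
    x ∈ fl R S ↔ ∃ h : x ∈ R, Sum.inr ⟨x, h⟩ ∈ S := by
  unfold fl
  rw [mem_map]
  constructor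
  · rintro ⟨⟨y, hy⟩, h1, rfl⟩
    exact ⟨hy, Finset.mem_toRight.1 h1⟩
  · rintro ⟨h, h1⟩
    exact ⟨⟨x, h⟩, Finset.mem_toRight.2 h1, rfl⟩

theorem fl_subset (S : Finset (EV X ⊕ {x // x ∈ R})) : fl R S ⊆ R := by
  intro x hx
  exact ((mem_fl R S x).1 hx).1

variable {R}

variable (A : X → Type) [∀ x, AddCommGroup (A x)]

/-- the graph on the vertices -/
def Gr (S : Finset (EV X ⊕ {x // x ∈ R})) : SimpleGraph (VV μ A) :=
  (Gf (μ := μ) S.toLeft (fl R S)).comap kap

variable {A}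

theorem Gr_adj (S : Finset (EV X ⊕ {x // x ∈ R})) (v w : VV μ A) :
    (Gr A S).Adj v w ↔ (toG S.toLeft).Adj v.1 w.1 ∨ (kap v ≠ kap w ∧ v.1 = w.1 ∧ v.1 ∈ fl R S) :=
  Iff.rfl

theorem Gr_inv (S : Finset (EV X ⊕ {x // x ∈ R})) (s : Equiv.Perm (VV μ A))
    (h1 : ∀ v, (s v).1 = v.1) (h2 : ∀ v w, kap (s v) = kap (s w) → kap v = kap w) :
    Inv s (Gr A S) := by
  intro v w h
  rw [Gr_adj] at h ⊢
  rw [h1, h1]
  rcases h with h | ⟨h, h3, h4⟩
  · exact Or.inl h
  · exact Or.inr ⟨fun h5 => h (h2 _ _ h5), h3, h4⟩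

theorem Gr_le (hR : ∀ x ∈ R, 2 ≤ μ x) (S S' : Finset (EV X ⊕ {x // x ∈ R})) :
    (Gr A S : SimpleGraph (VV μ A)) ≤ Gr A S' ↔ S ⊆ S' := by
  constructor
  · intro hle e he
    rcases e with ⟨e, hd⟩ | ⟨x, hx⟩
    · induction e using Sym2.ind with
      | _ a b =>
        have h1 : (Gr A S : SimpleGraph (VV μ A)).Adj ⟨a, (0, 0)⟩ ⟨b, (0, 0)⟩ := by
          rw [Gr_adj]
          exact Or.inl ((toG_adj _ _ _).2 ⟨hd, Finset.mem_toLeft.2 he⟩)
        have h2 := hle h1
        rw [Gr_adj] at h2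
        rcases h2 with h2 | ⟨_, h2, _⟩
        · obtain ⟨_, h⟩ := (toG_adj _ _ _).1 h2
          exact Finset.mem_toLeft.1 h
        · exact absurd (Sym2.mk_isDiag_iff.2 h2) hd
    · have h01 : (0 : ZMod (μ x)) ≠ 1 := by
        have : Fact (1 < μ x) := ⟨by have := hR x hx; omega⟩
        exact zero_ne_one
      have hk : kap (⟨x, (0, 0)⟩ : VV μ A) ≠ kap (⟨x, (1, 0)⟩ : VV μ A) := by
        intro h
        change (⟨x, 0⟩ : CP μ) = ⟨x, 1⟩ at h
        rw [Sigma.mk.injEq] at h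
        exact h01 (eq_of_heq h.2)
      have h1 : (Gr A S : SimpleGraph (VV μ A)).Adj ⟨x, (0, 0)⟩ ⟨x, (1, 0)⟩ := by
        rw [Gr_adj]
        exact Or.inr ⟨hk, rfl, (mem_fl R S x).2 ⟨hx, he⟩⟩
      have h2 := hle h1
      rw [Gr_adj] at h2
      rcases h2 with h2 | ⟨_, _, h2⟩
      · exact absurd h2 ((toG S'.toLeft).loopless.irrefl _)
      · exact ((mem_fl R S' x).1 h2).2
  · intro h v w hvw
    rw [Gr_adj] at hvw ⊢
    rcases hvw with h1 | ⟨h1, h2, h3⟩
    · refine Or.inl (toG_mono15 (fun e he => ?_) h1)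
      exact Finset.mem_toLeft.2 (h (Finset.mem_toLeft.1 he))
    · refine Or.inr ⟨h1, h2, (mem_fl R S' _).2 ?_⟩
      obtain ⟨h4, h5⟩ := (mem_fl R S _).1 h3
      exact ⟨h4, h h5⟩

variable {𝓕 : Pool.Agent.TH410.KV.Fam}

/-- the invariant graphs without a member are block graphs -/
theorem structure_of (hμ : ∀ x, NeZero (μ x)) (hcrt : CRT μ) (γ : ∀ x, A x ≃+ A x)
    (hgen : ∀ x, ∀ a b : A x, a ≠ 0 → b ≠ 0 → ∃ n : ℕ, (γ x)^[n] a = b)
    (u : ∀ x, (ZMod (μ x))ˣ)
    (hu : ∀ x, ∀ d d' : ZMod (μ x), d ≠ 0 → d' ≠ 0 →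
      ∃ k : ℕ, d' = (u x : ZMod (μ x)) ^ k * d ∨ d' = -((u x : ZMod (μ x)) ^ k * d))
    (F' : 𝓕) (hA : ∀ x, Subsingleton (A x) ∨ Nonempty (Fin F'.1.1 ↪ A x))
    (hR' : ∀ x, x ∉ R → μ x = 1 ∨ F'.1.1 ≤ μ x)
    (G : SimpleGraph (VV μ A)) (hG : ¬ Has 𝓕 G) (ha : ∀ t, Inv (ta t) G)
    (hc : Inv (cc γ) G) (hh' : Inv (hh u) G) :
    ∃ S : Finset (EV X ⊕ {x // x ∈ R}), Gr A S = G := by
  classical
  let B : Finset (EV X) := univ.filter (fun e => ∃ v w : VV μ A, s(v.1, w.1) = e.1 ∧ G.Adj v w)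
  let C : Finset {x // x ∈ R} := univ.filter (fun x => ∃ v w : VV μ A, v.1 = x.1 ∧ w.1 = x.1 ∧
    kap v ≠ kap w ∧ G.Adj v w)
  refine ⟨B.disjSum C, ?_⟩
  ext v w
  rw [Gr_adj, Finset.toLeft_disjSum, toG_adj]
  constructor
  · rintro (⟨hd, h⟩ | ⟨h1, h2, h3⟩)
    · rw [mem_filter] at h
      obtain ⟨_, v', w', h3, hadj⟩ := h
      have hne : v.1 ≠ w.1 := fun h => hd (Sym2.mk_isDiag_iff.2 h)
      simp only [Sym2.eq_iff] at h3
      rcases h3 with ⟨h3, h4⟩ | ⟨h3, h4⟩
      · exact unif hcrt γ G ha hc v' w' v w h3.symm h4.symm (by rw [h3, h4]; exact hne) hadj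
      · exact (unif hcrt γ G ha hc v' w' w v h3.symm h4.symm
          (by rw [h3, h4]; exact hne.symm) hadj).symm
    · rw [mem_fl] at h3
      obtain ⟨hx, h3⟩ := h3
      rw [Finset.inr_mem_disjSum, mem_filter] at h3
      obtain ⟨_, v', w', h4, h5, h6, h7⟩ := h3
      exact orbit_full hμ γ u hu G ha hc hh' v' w' v w h4.symm (h2.symm.trans h5.symm)
        (h4.trans h5.symm) h6 h1 h7
  · intro h
    by_cases hne : v.1 = w.1
    · right
      have hk : kap v ≠ kap w := fun hk => no_inner hμ γ hgen F' hA G hG ha hc v w hk h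
      refine ⟨hk, hne, ?_⟩
      rw [mem_fl]
      by_cases hx : v.1 ∈ R
      · refine ⟨hx, ?_⟩
        rw [Finset.inr_mem_disjSum, mem_filter]
        exact ⟨mem_univ _, v, w, rfl, hne.symm, hk, h⟩
      · exact absurd h (no_orbit hμ γ u hu F' v.1 (hR' _ hx) G hG ha hc hh' v w hk rfl hne.symm)
    · left
      refine ⟨fun hd => hne (Sym2.mk_isDiag_iff.1 hd), ?_⟩
      rw [mem_filter]
      exact ⟨mem_univ _, v, w, rfl, h⟩

/-- the types of the orbits -/
def tyf (𝓕 : Pool.Agent.TH410.KV.Fam) (μ : X → ℕ) (f : Finset X) (x : X) : TY 𝓕 :=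
  if x ∈ f then J (μ x) (xi : TY 𝓕) else xi

/-- containing a member in terms of types -/
theorem has_iff {b : ℕ} (hst : StableAt 𝓕 b) (hμ : ∀ x, NeZero (μ x))
    (hRb : ∀ x ∈ R, Nonempty (Fin b ↪ A x))
    (hRb' : ∀ x, x ∉ R → Nonempty (Fin b ↪ ZMod (μ x) × A x))
    (B : Finset (EV X)) (f : Finset X) (hf : f ⊆ R) :
    Has 𝓕 ((Gf (μ := μ) B f).comap (kap : VV μ A → CP μ)) ↔ Bad (tyf 𝓕 μ f) (toG B) := by
  classical
  constructor
  · rintro ⟨F, hF, ⟨g⟩⟩
    refine ⟨⟨F, hF⟩, fun i => (g i).1, fun x => ?_, fun i i' hii hne => ?_⟩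
    · unfold tyf
      by_cases hx : x ∈ f
      · rw [if_pos hx]
        refine ⟨fun i => if h : (g i).1 = x then h ▸ (g i).2.1 else 0, fun k i hi i' hi' hii => ?_⟩
        obtain ⟨h1, h2⟩ := memf _ hi
        obtain ⟨h1', h2'⟩ := memf _ hi'
        have h1 := (memf _ h1).2
        have h1' := (memf _ h1').2
        simp only [h1, dif_pos] at h2
        simp only [h1', dif_pos] at h2'
        have h3 := g.toHom.map_adj hii
        have h4 : kap (g i) = kap (g i') := by
          have e1 : kap (g i) = ⟨x, k⟩ := by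
            rw [← h2]
            subst h1
            rfl
          have e2 : kap (g i') = ⟨x, k⟩ := by
            rw [← h2']
            subst h1'
            rfl
          rw [e1, e2]
        have h5 : (Gf (μ := μ) B f).Adj (kap (g i)) (kap (g i')) := h3
        rw [h4] at h5
        exact (Gf (μ := μ) B f).loopless.irrefl _ h5
      · rw [if_neg hx]
        intro i hi i' hi' hii
        have hi := memf _ hi
        have hi' := memf _ hi'
        have h3 : (Gf (μ := μ) B f).Adj (kap (g i)) (kap (g i')) := g.toHom.map_adj hii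
        rw [Gf_adj] at h3
        rcases h3 with h3 | ⟨_, _, h3⟩
        · have e1 : (kap (g i)).1 = x := hi.2
          have e2 : (kap (g i')).1 = x := hi'.2
          rw [e1, e2] at h3
          exact (toG B).loopless.irrefl _ h3
        · have e1 : (kap (g i)).1 = x := hi.2
          rw [e1] at h3
          exact hx h3
    · have h3 : (Gf (μ := μ) B f).Adj (kap (g i)) (kap (g i')) := g.toHom.map_adj hii
      rw [Gf_adj] at h3
      rcases h3 with h3 | ⟨_, h3, _⟩
      · exact h3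
      · exact absurd h3 hne
  · rintro ⟨F, κ, h1, h2⟩
    -- the blocks
    let W : Type := {P : CP μ // P.1 ∈ R ∨ P.2 = 0}
    have hfW : Finite W := by
      have : ∀ x, Finite (ZMod (μ x)) := fun x => by
        have := hμ x
        infer_instance
      have : Finite (CP μ) := inferInstance
      exact Subtype.finite
    have hW : Fintype W := Fintype.ofFinite W
    let β : VV μ A → W := fun v => if h : v.1 ∈ R then ⟨kap v, Or.inl h⟩ else
      ⟨⟨v.1, 0⟩, Or.inr rfl⟩
    let Γ : SimpleGraph W := (Gf (μ := μ) B f).comap Subtype.val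
    have hΓ : Γ.comap β = (Gf (μ := μ) B f).comap (kap : VV μ A → CP μ) := by
      ext v w
      show (Gf (μ := μ) B f).Adj (β v).1 (β w).1 ↔ (Gf (μ := μ) B f).Adj (kap v) (kap w)
      have e1 : ∀ v, (β v).1.1 = v.1 := by
        intro v
        simp only [β]
        split_ifs <;> rfl
      rw [Gf_adj, Gf_adj, e1, e1]
      have e2 : (kap v).1 = v.1 := rfl
      have e3 : (kap w).1 = w.1 := rfl
      rw [e2, e3]
      refine or_congr Iff.rfl ?_
      constructor
      · rintro ⟨h3, h4, h5⟩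
        have hv : v.1 ∈ R := hf h5
        have hw : w.1 ∈ R := by rw [← h4]; exact hv
        simp only [β, dif_pos hv, dif_pos hw] at h3
        exact ⟨h3, h4, h5⟩
      · rintro ⟨h3, h4, h5⟩
        have hv : v.1 ∈ R := hf h5
        have hw : w.1 ∈ R := by rw [← h4]; exact hv
        simp only [β, dif_pos hv, dif_pos hw]
        exact ⟨h3, h4, h5⟩
    rw [← hΓ]
    -- `b` vertices in every block
    have φ : ∀ x ∈ R, Fin b ↪ A x := fun x hx => Classical.choice (hRb x hx)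
    have φ' : ∀ x, x ∉ R → (Fin b ↪ ZMod (μ x) × A x) := fun x hx => Classical.choice (hRb' x hx)
    let fb : W × Fin b → VV μ A := fun z => if h : z.1.1.1 ∈ R then
      ⟨z.1.1.1, (z.1.1.2, φ _ h z.2)⟩ else ⟨z.1.1.1, φ' _ h z.2⟩
    have hfb1 : ∀ z, β (fb z) = z.1 := by
      rintro ⟨⟨⟨x, j⟩, hP⟩, i⟩
      by_cases h : x ∈ R
      · simp only [fb, β, dif_pos h]
        rfl
      · have hj : j = 0 := by
          rcases hP with hP | hP
          · exact absurd hP h
          · exact hP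
        subst hj
        simp only [fb, β, dif_neg h]
    have hfb2 : Function.Injective fb := by
      intro z z' hz
      have h3 : z.1 = z'.1 := by rw [← hfb1 z, ← hfb1 z', hz]
      obtain ⟨⟨⟨x, j⟩, hP⟩, i⟩ := z
      obtain ⟨P', i'⟩ := z'
      simp only at h3
      subst h3
      congr 1
      by_cases h : x ∈ R
      · simp only [fb, dif_pos h, Sigma.mk.injEq, heq_eq_eq, Prod.mk.injEq, true_and] at hz
        exact (φ x h).injective hz
      · simp only [fb, dif_neg h, Sigma.mk.injEq, heq_eq_eq, true_and] at hz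
        exact (φ' x h).injective hz
    -- colourings of the flagged orbits
    have hρ : ∀ x, ∃ ρ : Fin F.1.1 → ZMod (μ x), x ∈ f →
        ∀ i i', κ i = x → κ i' = x → ρ i = ρ i' → ¬ F.1.2.Adj i i' := by
      intro x
      by_cases hx : x ∈ f
      · have h3 := h1 x
        unfold tyf at h3
        rw [if_pos hx] at h3
        obtain ⟨ρ, hρ⟩ := h3
        refine ⟨ρ, fun _ i i' hi hi' hii => ?_⟩
        exact hρ (ρ i) i (by simp [hi]) i' (by simp [hi', hii])
      · exact ⟨fun _ => 0, fun h => absurd h hx⟩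
    choose ρ hρ using hρ
    have hκ : Nonempty (F.1.2 →g Γ) := by
      refine ⟨⟨fun i => if h : κ i ∈ f then ⟨⟨κ i, ρ (κ i) i⟩, Or.inl (hf h)⟩ else
        ⟨⟨κ i, 0⟩, Or.inr rfl⟩, fun {i i'} hii => ?_⟩⟩
      have e1 : ∀ i, (if h : κ i ∈ f then (⟨⟨κ i, ρ (κ i) i⟩, Or.inl (hf h)⟩ : W) else
        ⟨⟨κ i, 0⟩, Or.inr rfl⟩).1.1 = κ i := by
        intro i
        split_ifs <;> rfl
      show (Gf (μ := μ) B f).Adj _ _
      rw [Gf_adj, e1, e1]
      by_cases hne : κ i = κ i'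
      · by_cases hx : κ i ∈ f
        · right
          have hx' : κ i' ∈ f := by rw [← hne]; exact hx
          refine ⟨?_, hne, hx⟩
          rw [dif_pos hx, dif_pos hx']
          intro h3
          refine hρ (κ i) hx i i' rfl hne.symm ?_ hii
          have h4 : (⟨κ i, ρ (κ i) i⟩ : CP μ) = ⟨κ i', ρ (κ i') i'⟩ := h3
          rw [← hne] at h4
          rw [Sigma.mk.injEq] at h4
          exact eq_of_heq h4.2
        · exfalso
          have h3 := h1 (κ i)
          unfold tyf at h3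
          rw [if_neg hx] at h3
          exact h3 i (by simp) i' (by simp [hne]) hii
      · exact Or.inl (h2 i i' hii hne)
    obtain ⟨κ'⟩ := hκ
    exact has_of_hom hst Γ β fb hfb2 hfb1 F.1 F.2 κ'

end Cnt

end Pool.Agent.H23.EW
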