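import Mathlib

set_option autoImplicit false

/-!
Primes of the form `2 * 3 ^ j + 1`, by iterated cubing.
-/

namespace Pool.Agent.H23.EW

/-- evaluate the argument first -/
def force {α : Type} (n : ℕ) (k : ℕ → α) : α :=
  match n with
  | 0 => k 0
  | m + 1 => k (m + 1)

theorem force_eq {α : Type} (n : ℕ) (k : ℕ → α) : force n k = k n := by
  cases n <;> rfl

/-- `x ^ (3 ^ (2 ^ k))` modulo `s` -/
def cub (s : ℕ) : ℕ → ℕ → ℕ
  | 0, x => Nat.mod (Nat.pow x 3) s
  | k + 1, x => force (cub s k x) (cub s k)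

/-- iterated cubing, the number of the iterations in binary -/
def cubs (s : ℕ) : List ℕ → ℕ → ℕ
  | [], x => x
  | k :: l, x => force (cub s k x) (cubs s l)

/-- the test -/
def tst (j a : ℕ) (l : List ℕ) : Bool :=
  force (2 * 3 ^ j + 1) fun s =>
    force (cubs s l a) fun x =>
      force (Nat.mod (Nat.pow x 3) s) fun y =>
        (Nat.beq y 1 || Nat.beq (y + 1) s) && !(Nat.beq (Nat.mod (Nat.pow x 2) s) 1)

theorem cast_cub (s k x : ℕ) : ((cub s k x : ℕ) : ZMod s) = (x : ZMod s) ^ 3 ^ 2 ^ k := by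
  induction k generalizing x with
  | zero =>
    show (((x ^ 3) % s : ℕ) : ZMod s) = _
    rw [ZMod.natCast_mod, Nat.cast_pow, pow_zero, pow_one]
  | succ k ih =>
    show ((force (cub s k x) (cub s k) : ℕ) : ZMod s) = _
    rw [force_eq, ih, ih, ← pow_mul, ← pow_add, ← two_mul, ← pow_succ']

theorem cast_cubs (s : ℕ) (l : List ℕ) (x : ℕ) :
    ((cubs s l x : ℕ) : ZMod s) = (x : ZMod s) ^ 3 ^ (l.map (2 ^ ·)).sum := by
  induction l generalizing x with
  | nil => simp [cubs]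
  | cons k l ih =>
    show ((force (cub s k x) (cubs s l) : ℕ) : ZMod s) = _
    rw [force_eq, ih, cast_cub, ← pow_mul, ← pow_add, List.map_cons, List.sum_cons]

theorem prime_of_tst (j a : ℕ) (l : List ℕ) (hj : 1 ≤ j) (hl : (l.map (2 ^ ·)).sum = j - 1)
    (h : tst j a l = true) : (2 * 3 ^ j + 1).Prime := by
  unfold tst at h
  rw [force_eq, force_eq, force_eq] at h
  set s := 2 * 3 ^ j + 1 with hs
  set x := cubs s l a with hx
  rw [Bool.and_eq_true, Bool.or_eq_true, Bool.not_eq_true'] at h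
  obtain ⟨h1, h2⟩ := h
  have h3j : 3 ≤ 3 ^ j := by
    calc 3 = 3 ^ 1 := by norm_num
      _ ≤ 3 ^ j := Nat.pow_le_pow_right (by norm_num) hj
  have hxa : (x : ZMod s) = (a : ZMod s) ^ 3 ^ (j - 1) := by
    rw [hx, cast_cubs, hl]
  have hj1 : 3 ^ (j - 1) * 3 = 3 ^ j := by
    rw [← pow_succ]
    congr 1
    omega
  have hy : (x : ZMod s) ^ 3 = 1 ∨ (x : ZMod s) ^ 3 = -1 := by
    rcases h1 with h1 | h1
    · left
      have h3 : (x ^ 3) % s = 1 := Nat.eq_of_beq_eq_true h1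
      have h4 := congrArg (fun n : ℕ => (n : ZMod s)) h3
      simpa using h4
    · right
      have h3 : (x ^ 3) % s + 1 = s := Nat.eq_of_beq_eq_true h1
      have h4 := congrArg (fun n : ℕ => (n : ZMod s)) h3
      simp only [Nat.cast_add, ZMod.natCast_mod, Nat.cast_pow, Nat.cast_one,
        ZMod.natCast_self] at h4
      exact eq_neg_of_add_eq_zero_left h4
  have hx2 : (x : ZMod s) ^ 2 ≠ 1 := by
    intro h3
    have h4 : ¬ (x ^ 2) % s = 1 := by
      intro h5
      have h6 : Nat.beq ((x ^ 2) % s) 1 = true := by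
        rw [h5]
        rfl
      have h7 : Nat.beq (Nat.mod (Nat.pow x 2) s) 1 = false := h2
      have h8 : Nat.mod (Nat.pow x 2) s = (x ^ 2) % s := rfl
      rw [h8, h6] at h7
      exact Bool.noConfusion h7
    apply h4
    have h5 : ((x ^ 2 : ℕ) : ZMod s) = ((1 : ℕ) : ZMod s) := by
      rw [Nat.cast_pow, Nat.cast_one]
      exact h3
    have h6 := (ZMod.natCast_eq_natCast_iff _ _ _).1 h5
    have h7 : (1 : ℕ) % s = 1 := Nat.mod_eq_of_lt (by omega)
    rw [Nat.ModEq, h7] at h6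
    exact h6
  have hone : (-1 : ZMod s) ≠ 1 := by
    have : Fact (2 < s) := ⟨by omega⟩
    exact ZMod.neg_one_ne_one
  have hodd : Odd (3 ^ (j - 1)) := Odd.pow (by decide)
  -- the primitive root
  obtain ⟨g, hg1, hg2⟩ : ∃ g : ZMod s, g ^ 3 ^ j = -1 ∧ g ^ (2 * 3 ^ (j - 1)) ≠ 1 := by
    rcases hy with hy | hy
    · refine ⟨-(a : ZMod s), ?_, ?_⟩
      · rw [← hj1, pow_mul, hodd.neg_pow, ← hxa, Odd.neg_pow (by decide), hy]
      · rw [mul_comm, pow_mul, hodd.neg_pow, ← hxa, neg_sq]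
        exact hx2
    · refine ⟨(a : ZMod s), ?_, ?_⟩
      · rw [← hj1, pow_mul, ← hxa, hy]
      · rw [mul_comm, pow_mul, ← hxa]
        exact hx2
  have hs1 : s - 1 = 2 * 3 ^ j := by omega
  refine lucas_primality s g ?_ ?_
  · rw [hs1, mul_comm, pow_mul, hg1]
    norm_num
  · intro q hq hqs
    rw [hs1] at hqs ⊢
    have hq23 : q = 2 ∨ q = 3 := by
      rcases (Nat.Prime.dvd_mul hq).1 hqs with h3 | h3
      · exact Or.inl ((Nat.prime_dvd_prime_iff_eq hq Nat.prime_two).1 h3)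
      · exact Or.inr ((Nat.prime_dvd_prime_iff_eq hq Nat.prime_three).1 (hq.dvd_of_dvd_pow h3))
    rcases hq23 with rfl | rfl
    · rw [Nat.mul_div_cancel_left _ (by norm_num), hg1]
      exact hone
    · have h3 : 2 * 3 ^ j / 3 = 2 * 3 ^ (j - 1) := by
        rw [← hj1, ← mul_assoc]
        exact Nat.mul_div_cancel _ (by norm_num)
      rw [h3]
      exact hg2

end Pool.Agent.H23.EW
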