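import Mathlib
import Pool.Agent.H23.EW.Cub

set_option autoImplicit false

/-!
Sums of different numbers `2 * 3 ^ j + 1` modulo a power of two.
-/

namespace Pool.Agent.H23.EW

open Finset

/-- one step: `R` is the set of the residues reached so far, as a binary number -/
def stp (N a R : ℕ) : ℕ :=
  Nat.land (Nat.lor R (Nat.lor (Nat.shiftLeft R a) (Nat.shiftRight R (N - a))))
    (Nat.sub (Nat.pow 2 N) 1)

/-- the set of the residues of the sums of different numbers `2 * 3 ^ j + 1`, `j` in the list -/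
def rch (N : ℕ) : List ℕ → ℕ
  | [] => 1
  | j :: l => force (rch N l) fun R => force (Nat.mod (2 * 3 ^ j + 1) N) fun a => stp N a R

theorem testBit_stp (N a R r : ℕ) :
    (stp N a R).testBit r = true ↔ r < N ∧ (R.testBit r = true ∨ (a ≤ r ∧ R.testBit (r - a) = true) ∨
      R.testBit (r + (N - a)) = true) := by
  have h1 : stp N a R = (R ||| ((R <<< a) ||| (R >>> (N - a)))) &&& (2 ^ N - 1) := rfl
  rw [h1, Nat.testBit_and, Nat.testBit_or, Nat.testBit_or, Nat.testBit_shiftLeft,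
    Nat.testBit_shiftRight, Nat.testBit_two_pow_sub_one, Nat.add_comm (N - a) r]
  simp only [Bool.and_eq_true, Bool.or_eq_true, decide_eq_true_eq, ge_iff_le]
  tauto

theorem rch_cons (N j : ℕ) (l : List ℕ) :
    rch N (j :: l) = stp N ((2 * 3 ^ j + 1) % N) (rch N l) := by
  show force (rch N l) _ = _
  rw [force_eq, force_eq]
  rfl

theorem rch_lt (N : ℕ) (hN : 0 < N) (l : List ℕ) (r : ℕ) (h : (rch N l).testBit r = true) :
    r < N := by
  cases l with
  | nil =>
    have h1 : (1 : ℕ).testBit r = true := h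
    rw [Nat.testBit_one_eq_true_iff_self_eq_zero] at h1
    omega
  | cons j l =>
    rw [rch_cons, testBit_stp] at h
    exact h.1

theorem rch_spec (N : ℕ) (hN : 0 < N) (l : List ℕ) (hl : l.Nodup) (r : ℕ) (hr : r < N)
    (h : (rch N l).testBit r = true) :
    ∃ S : Finset ℕ, (∀ j ∈ S, j ∈ l) ∧ ∑ j ∈ S, (2 * 3 ^ j + 1) ≡ r [MOD N] := by
  induction l generalizing r with
  | nil =>
    have h0 : r = 0 := by
      by_contra h0
      have h1 : (1 : ℕ).testBit r = true := h
      rw [Nat.testBit_one_eq_true_iff_self_eq_zero] at h1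
      exact h0 h1
    subst h0
    exact ⟨∅, by simp, by simp; exact Nat.ModEq.refl 0⟩
  | cons j l ih =>
    rw [List.nodup_cons] at hl
    rw [rch_cons, testBit_stp] at h
    set a := (2 * 3 ^ j + 1) % N with ha
    have haN : a < N := Nat.mod_lt _ hN
    have hins : ∀ S : Finset ℕ, (∀ j ∈ S, j ∈ l) → ∀ r' : ℕ,
        ∑ j ∈ S, (2 * 3 ^ j + 1) ≡ r' [MOD N] → r' + a ≡ r [MOD N] →
        ∃ S : Finset ℕ, (∀ i ∈ S, i ∈ j :: l) ∧ ∑ j ∈ S, (2 * 3 ^ j + 1) ≡ r [MOD N] := by
      intro S hS r' h2 h3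
      have hj : j ∉ S := fun h => hl.1 (hS j h)
      refine ⟨insert j S, ?_, ?_⟩
      · intro i hi
        rw [Finset.mem_insert] at hi
        rcases hi with rfl | hi
        · exact List.mem_cons_self
        · exact List.mem_cons_of_mem _ (hS i hi)
      · rw [Finset.sum_insert hj]
        have h4 : 2 * 3 ^ j + 1 ≡ a [MOD N] := (Nat.mod_modEq _ _).symm
        have h5 := h4.add h2
        rw [add_comm a r'] at h5
        exact h5.trans h3
    obtain ⟨_, h | ⟨h2, h⟩ | h⟩ := h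
    · obtain ⟨S, hS, hS2⟩ := ih hl.2 r hr h
      exact ⟨S, fun i hi => List.mem_cons_of_mem _ (hS i hi), hS2⟩
    · obtain ⟨S, hS, hS2⟩ := ih hl.2 (r - a) (by omega) h
      refine hins S hS _ hS2 ?_
      rw [Nat.sub_add_cancel h2]
    · have h3 : r + (N - a) < N := rch_lt N hN l _ h
      obtain ⟨S, hS, hS2⟩ := ih hl.2 (r + (N - a)) h3 h
      refine hins S hS _ hS2 ?_
      have h4 : r + (N - a) + a = r + N := by omega
      rw [h4]
      exact Nat.add_modEq_right

/-- the list of the exponents -/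
def JJ : List ℕ := [16, 17, 30, 54, 57, 60, 65, 132, 180, 320, 696, 782, 822, 897, 1252, 1454,
  4217, 5480, 6225, 7842, 12096, 13782, 17720]

theorem rch_full : rch (2 ^ 18) JJ = 2 ^ 2 ^ 18 - 1 := by
  decide +kernel

theorem exists_sum (n : ℕ) : ∃ S : Finset ℕ, (∀ j ∈ S, j ∈ JJ) ∧
    ∑ j ∈ S, (2 * 3 ^ j + 1) ≡ n [MOD 2 ^ 18] := by
  obtain ⟨S, h1, h2⟩ := rch_spec (2 ^ 18) (by norm_num) JJ (by decide) (n % 2 ^ 18)
    (Nat.mod_lt _ (by norm_num)) (by
      rw [rch_full, Nat.testBit_two_pow_sub_one]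
      exact decide_eq_true (Nat.mod_lt _ (by norm_num)))
  exact ⟨S, h1, h2.trans (Nat.mod_modEq _ _)⟩

end Pool.Agent.H23.EW
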