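import Mathlib
import Pool.Agent.H23.EW.Cnt

set_option autoImplicit false
set_option linter.unusedSectionVars false

/-!
The identity that holds if containing a member is not evasive.
-/

namespace Pool.Agent.H23.EW

open Finset Pool.Agent.H98R2.Ev Pool.Agent.TH410.KV
open Pool.Agent.H98R2.Nb (Inv Has)
open Pool.Agent.W5h82.Ev (StableAt has_mono has_of_hom)

section Idn

variable {X : Type} [Fintype X] [DecidableEq X] {μ : X → ℕ} {R : Finset X}
  {𝓕 : Pool.Agent.TH410.KV.Fam}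

theorem lin_neg {k M : Type} [CommRing k] [CommRing M] [Module k M] (L : M →ₗ[k] k)
    (n : ℕ) (y : M) : L ((-1) ^ n * y) = (-1) ^ n * L y := by
  rcases Nat.even_or_odd n with h | h
  · rw [h.neg_one_pow, h.neg_one_pow, one_mul, one_mul]
  · rw [h.neg_one_pow, h.neg_one_pow, neg_one_mul, neg_one_mul, map_neg]

theorem prod_tyf (q : ℕ) [Fact q.Prime] (C : Finset {x // x ∈ R}) :
    ∏ x, cl q (tyf 𝓕 μ (C.map (Function.Embedding.subtype _)) x) =
      (∏ x ∈ C, cl q (J (μ x.1) (xi : TY 𝓕))) *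
        cl q (xi : TY 𝓕) ^ (Fintype.card X - C.card) := by
  classical
  set f : Finset X := C.map (Function.Embedding.subtype _) with hf
  have h1 : ∏ x, cl q (tyf 𝓕 μ f x) = (∏ x ∈ f, cl q (tyf 𝓕 μ f x)) *
      ∏ x ∈ univ \ f, cl q (tyf 𝓕 μ f x) := by
    rw [mul_comm, Finset.prod_sdiff (Finset.subset_univ f)]
  have h2 : ∏ x ∈ f, cl q (tyf 𝓕 μ f x) = ∏ x ∈ f, cl q (J (μ x) (xi : TY 𝓕)) := by
    refine Finset.prod_congr rfl fun x hx => ?_
    unfold tyf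
    rw [if_pos hx]
  have h3 : ∏ x ∈ univ \ f, cl q (tyf 𝓕 μ f x) =
      cl q (xi : TY 𝓕) ^ (Fintype.card X - C.card) := by
    rw [Finset.prod_congr rfl (g := fun _ => cl q (xi : TY 𝓕)) fun x hx => by
      unfold tyf
      rw [if_neg (Finset.mem_sdiff.1 hx).2], Finset.prod_const, Finset.card_sdiff_of_subset
        (Finset.subset_univ f), Finset.card_univ, hf, Finset.card_map]
  rw [h1, h2, h3, hf, Finset.prod_map]
  rfl

theorem sum_two {α β M : Type} [Fintype α] [Fintype β] [DecidableEq α] [DecidableEq β]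
    [AddCommMonoid M] (g : Finset (α ⊕ β) → M) :
    ∑ S, g S = ∑ C : Finset β, ∑ B : Finset α, g (B.disjSum C) := by
  rw [← Equiv.sum_comp (Finset.sumEquiv (α := α) (β := β)).symm.toEquiv,
    Fintype.sum_prod_type, Finset.sum_comm]
  rfl

theorem prod_expand (q : ℕ) [Fact q.Prime] :
    (∏ x ∈ R, (cl q (xi : TY 𝓕) - cl q (J (μ x) (xi : TY 𝓕)))) *
      cl q (xi : TY 𝓕) ^ (Fintype.card X - R.card) =
    ∑ C : Finset {x // x ∈ R}, (-1) ^ C.card *
      ∏ x, cl q (tyf 𝓕 μ (C.map (Function.Embedding.subtype _)) x) := by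
  classical
  have h1 : ∏ x ∈ R, (cl q (xi : TY 𝓕) - cl q (J (μ x) (xi : TY 𝓕))) =
      ∏ x : {x // x ∈ R}, (-cl q (J (μ x.1) (xi : TY 𝓕)) + cl q (xi : TY 𝓕)) := by
    rw [← Finset.prod_coe_sort R (fun x => cl q (xi : TY 𝓕) - cl q (J (μ x) (xi : TY 𝓕)))]
    refine Finset.prod_congr rfl fun x _ => ?_
    ring
  rw [h1, Finset.prod_add, Finset.powerset_univ, Finset.sum_mul]
  refine Finset.sum_congr rfl fun C _ => ?_
  have h4 : ∏ i ∈ C, -cl q (J (μ i.1) (xi : TY 𝓕)) =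
      (-1) ^ C.card * ∏ i ∈ C, cl q (J (μ i.1) (xi : TY 𝓕)) := by
    rw [← Finset.prod_const, ← Finset.prod_mul_distrib]
    refine Finset.prod_congr rfl fun i _ => ?_
    ring
  rw [prod_tyf, h4, Finset.prod_const, Finset.card_sdiff_of_subset
    (Finset.subset_univ C), Finset.card_univ, Fintype.card_coe, mul_assoc, mul_assoc, ← pow_add]
  congr 3
  have h2 : C.card ≤ R.card := by
    have := Finset.card_le_univ C
    rwa [Fintype.card_coe] at this
  have h3 : R.card ≤ Fintype.card X := Finset.card_le_univ R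
  omega

open Classical in
theorem gen_identity {A : X → Type} [∀ x, AddCommGroup (A x)] [∀ x, Fintype (A x)]
    [∀ x, DecidableEq (A x)] [∀ x, NeZero (μ x)]
    (h0 : ∀ F : 𝓕, ¬ F.1.2.Colorable 1) {b : ℕ} (hst : StableAt 𝓕 b)
    (hcrt : CRT μ) (γ : ∀ x, A x ≃+ A x)
    (hgen : ∀ x, ∀ a b : A x, a ≠ 0 → b ≠ 0 → ∃ n : ℕ, (γ x)^[n] a = b)
    (u : ∀ x, (ZMod (μ x))ˣ)
    (hu : ∀ x, ∀ d d' : ZMod (μ x), d ≠ 0 → d' ≠ 0 →
      ∃ k : ℕ, d' = (u x : ZMod (μ x)) ^ k * d ∨ d' = -((u x : ZMod (μ x)) ^ k * d))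
    (F' : 𝓕) (hA : ∀ x, Subsingleton (A x) ∨ Nonempty (Fin F'.1.1 ↪ A x))
    (hR' : ∀ x, x ∉ R → μ x = 1 ∨ F'.1.1 ≤ μ x) (hR : ∀ x ∈ R, 2 ≤ μ x)
    (hRb : ∀ x ∈ R, Nonempty (Fin b ↪ A x))
    (hRb' : ∀ x, x ∉ R → Nonempty (Fin b ↪ ZMod (μ x) × A x))
    (p q t : ℕ) [Fact p.Prime] [Fact q.Prime] (hpA : ∀ x (a : A x), p • a = 0)
    (hut : ∀ x, u x ^ q ^ t = 1)
    (hne : NE (univ : Finset (EV (VV μ A))) (fun S => ¬ Has 𝓕 (toG S))) :
    Lb 𝓕 q ((∏ x ∈ R, (cl q (xi : TY 𝓕) - cl q (J (μ x) (xi : TY 𝓕)))) *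
      cl q (xi : TY 𝓕) ^ (Fintype.card X - R.card)) = 0 := by
  have hμ : ∀ x, NeZero (μ x) := fun x => inferInstance
  have key := Pool.Agent.H23.EV.graph_criterion (V := VV μ A) (fun G => ¬ Has 𝓕 G)
    (fun G G' hGG' hP h => hP (has_mono h (SimpleGraph.IsContained.of_le hGG')))
    (fun s G hP h => hP (has_mono h ⟨(SimpleGraph.Iso.map s G).symm.toCopy⟩))
    (by
      rintro ⟨H, hH, ⟨f⟩⟩
      apply h0 ⟨H, hH⟩
      refine ⟨SimpleGraph.Coloring.mk (fun _ => (0 : Fin 1)) ?_⟩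
      intro u v huv
      exact (f.toHom.map_adj huv).elim)
    hne p q t (fun τ : (∀ x, ZMod (μ x) → A x) => ta τ) (cc γ) (hh u)
    (fun i j => ta_comm i j) (fun i => ta_pow p hpA i) (hh_pow u (q ^ t) hut)
    (by
      intro G hG i
      rw [hh_ta]
      exact hG _)
    (by
      intro G hG i
      rw [cc_ta]
      exact hG _)
    (fun G hG1 hG2 => inv_conj hμ hcrt γ hgen u G hG1 hG2)
    (fun S : Finset (EV X ⊕ {x // x ∈ R}) => Gr A S)
    (fun S S' => Gr_le hR S S')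
    (fun S i => Gr_inv S _ (fun v => rfl) (fun v w h => h))
    (by
      intro S
      refine Gr_inv S _ (fun v => rfl) (fun v w h => ?_)
      obtain ⟨x, j, a⟩ := v
      obtain ⟨y, k, c⟩ := w
      rw [cc_mk, cc_mk] at h
      change (⟨x, j + 1⟩ : CP μ) = ⟨y, k + 1⟩ at h
      rw [Sigma.mk.injEq] at h
      obtain ⟨rfl, h⟩ := h
      have h1 := add_right_cancel (eq_of_heq h)
      subst h1
      rfl)
    (by
      intro S
      refine Gr_inv S _ (fun v => rfl) (fun v w h => ?_)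
      obtain ⟨x, j, a⟩ := v
      obtain ⟨y, k, c⟩ := w
      rw [hh_mk, hh_mk] at h
      change (⟨x, (u x : ZMod (μ x)) * j⟩ : CP μ) = ⟨y, (u y : ZMod (μ y)) * k⟩ at h
      rw [Sigma.mk.injEq] at h
      obtain ⟨rfl, h⟩ := h
      have h1 := (Units.mul_right_inj _).1 (eq_of_heq h)
      subst h1
      rfl)
    (fun G hG h1 h2 h3 => structure_of hμ hcrt γ hgen u hu F' hA hR' G hG h1 h2 h3)
  have key2 := (ZMod.intCast_zmod_eq_zero_iff_dvd _ q).2 key
  rw [sum_two, Int.cast_sum] at key2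
  rw [prod_expand, map_sum]
  refine (Finset.sum_congr rfl fun C _ => ?_).trans key2
  have e1 : Lb 𝓕 q ((-1 : AA 𝓕 q) ^ C.card *
      ∏ x, cl q (tyf 𝓕 μ (C.map (Function.Embedding.subtype _)) x)) = (-1 : ZMod q) ^ C.card *
      Lb 𝓕 q (∏ x, cl q (tyf 𝓕 μ (C.map (Function.Embedding.subtype _)) x)) :=
    lin_neg (Lb 𝓕 q) C.card _
  rw [e1, Lb_prod]
  unfold NN
  rw [Finset.mul_sum, Int.cast_sum]
  refine Finset.sum_congr rfl fun B _ => ?_
  have hQ : Has 𝓕 (Gr A (B.disjSum C) : SimpleGraph (VV μ A)) ↔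
      Bad (tyf 𝓕 μ (C.map (Function.Embedding.subtype _))) (toG B) := by
    have h1 : (Gr A (B.disjSum C) : SimpleGraph (VV μ A)) =
        (Gf (μ := μ) B (C.map (Function.Embedding.subtype _))).comap (kap : VV μ A → CP μ) := by
      unfold Gr fl
      rw [Finset.toLeft_disjSum, Finset.toRight_disjSum]
    rw [h1]
    refine has_iff hst hμ hRb hRb' B _ ?_
    intro x hx
    rw [mem_map] at hx
    obtain ⟨y, _, rfl⟩ := hx
    exact y.2
  unfold ind
  rw [Finset.card_disjSum, pow_add]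
  by_cases h : Bad (tyf 𝓕 μ (C.map (Function.Embedding.subtype _))) (toG B)
  · rw [if_pos h, if_neg (fun h2 => h2 (hQ.2 h))]
    simp
  · rw [if_neg h, if_pos (fun h2 => h (hQ.1 h2))]
    push_cast
    ring

end Idn

end Pool.Agent.H23.EW
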