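import Mathlib
import Pool.Agent.H23.L.W.Main
import Pool.Agent.H23.EW.Idn

set_option autoImplicit false
set_option linter.unusedSectionVars false

/-!
The identity for `Fin n`.
-/

namespace Pool.Agent.H23.EW

open Finset Pool.Agent.H98R2.Ev Pool.Agent.TH410.KV
open Pool.Agent.H98R2.Nb (Inv Has)
open Pool.Agent.W5h82.Ev (StableAt has_mono has_of_hom Evas h0_of)

theorem crt_of_coprime {X : Type} [Fintype X] (μ : X → ℕ) (hμ : ∀ x, NeZero (μ x))
    (h : ∀ x y, x ≠ y → Nat.Coprime (μ x) (μ y)) : CRT μ := by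
  classical
  intro e
  obtain ⟨k, hk⟩ := Nat.chineseRemainderOfFinset (fun x => (e x).val) μ univ
    (fun x _ => (hμ x).ne) (fun x _ y _ hxy => h x y hxy)
  refine ⟨k, fun x => ?_⟩
  rw [(ZMod.natCast_eq_natCast_iff _ _ _).2 (hk x (mem_univ x)), ZMod.natCast_zmod_val]

/-- a cyclic group of automorphisms which is transitive on the elements different from zero -/
theorem exists_singer (p : ℕ) [Fact p.Prime] (d : ℕ) :
    ∃ γ : (Fin d → ZMod p) ≃+ (Fin d → ZMod p), ∀ a b : Fin d → ZMod p, a ≠ 0 → b ≠ 0 →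
      ∃ n : ℕ, γ^[n] a = b := by
  rcases Nat.eq_zero_or_pos d with hd | hd
  · subst hd
    exact ⟨AddEquiv.refl _, fun a b ha => absurd (Subsingleton.elim _ _) ha⟩
  · have hfin : Finite (GaloisField p d) := inferInstance
    obtain ⟨g, hg⟩ := IsCyclic.exists_generator (α := (GaloisField p d)ˣ)
    have e : GaloisField p d ≃ₗ[ZMod p] (Fin d → ZMod p) := LinearEquiv.ofFinrankEq _ _ (by
      rw [GaloisField.finrank p (by omega), Module.finrank_fin_fun])
    let γ : (Fin d → ZMod p) ≃+ (Fin d → ZMod p) :=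
      AddEquiv.mk' (e.symm.toEquiv.trans ((Units.mulLeft g).trans e.toEquiv)) (by
        intro a b
        show e ((g : GaloisField p d) * e.symm (a + b)) =
          e ((g : GaloisField p d) * e.symm a) + e ((g : GaloisField p d) * e.symm b)
        rw [map_add, mul_add, map_add])
    have hγ : ∀ a, γ a = e ((g : GaloisField p d) * e.symm a) := fun a => rfl
    have hpow : ∀ (n : ℕ) (a : Fin d → ZMod p),
        γ^[n] a = e ((g : GaloisField p d) ^ n * e.symm a) := by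
      intro n a
      induction n with
      | zero => simp
      | succ n ih =>
        rw [Function.iterate_succ_apply', ih, hγ, LinearEquiv.symm_apply_apply, pow_succ',
          mul_assoc]
    refine ⟨γ, fun a b ha hb => ?_⟩
    have ha' : e.symm a ≠ 0 := fun h => ha (by
      have := congrArg e h
      rwa [LinearEquiv.apply_symm_apply, map_zero] at this)
    have hb' : e.symm b ≠ 0 := fun h => hb (by
      have := congrArg e h
      rwa [LinearEquiv.apply_symm_apply, map_zero] at this)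
    obtain ⟨n, hn⟩ := (mem_powers_iff_mem_zpowers).2
      (hg (Units.mk0 (e.symm b / e.symm a) (div_ne_zero hb' ha')))
    refine ⟨n, ?_⟩
    have h1 : (g : GaloisField p d) ^ n = e.symm b / e.symm a := by
      have h2 := congrArg Units.val hn
      simpa using h2
    rw [hpow, h1, div_mul_cancel₀ _ ha', LinearEquiv.apply_symm_apply]

theorem NE_dec {E : Type} (i j : DecidableEq E) (U : Finset E) (P : Finset E → Prop)
    (h : @NE E i U P) : @NE E j U P := by
  have e : i = j := Subsingleton.elim i j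
  subst e
  exact h

variable {𝓕 : Pool.Agent.TH410.KV.Fam}

theorem fin_identity {p q : ℕ} [Fact p.Prime] [Fact q.Prime]
    (h0 : ∀ F : 𝓕, ¬ F.1.2.Colorable 1) {b : ℕ} (hst : StableAt 𝓕 b)
    {X : Type} [Fintype X] [DecidableEq X] (μ d : X → ℕ) (R : Finset X)
    (hμ : ∀ x, NeZero (μ x)) (hcrt : CRT μ) (u : ∀ x, (ZMod (μ x))ˣ)
    (hu : ∀ x, ∀ d d' : ZMod (μ x), d ≠ 0 → d' ≠ 0 →
      ∃ k : ℕ, d' = (u x : ZMod (μ x)) ^ k * d ∨ d' = -((u x : ZMod (μ x)) ^ k * d))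
    (t : ℕ) (hut : ∀ x, u x ^ q ^ t = 1)
    (F' : 𝓕) (hd : ∀ x, d x = 0 ∨ F'.1.1 ≤ p ^ d x)
    (hR' : ∀ x, x ∉ R → μ x = 1 ∨ F'.1.1 ≤ μ x) (hR : ∀ x ∈ R, 2 ≤ μ x)
    (hRb : ∀ x ∈ R, b ≤ p ^ d x) (hRb' : ∀ x, x ∉ R → b ≤ μ x * p ^ d x)
    (n : ℕ) (hn : n = ∑ x, μ x * p ^ d x)
    (hne : NE (univ : Finset (EV (Fin n))) (fun S => ¬ Has 𝓕 (toG S))) :
    Lb 𝓕 q ((∏ x ∈ R, (cl q (xi : TY 𝓕) - cl q (J (μ x) (xi : TY 𝓕)))) *
      cl q (xi : TY 𝓕) ^ (Fintype.card X - R.card)) = 0 := by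
  classical
  let A : X → Type := fun x => Fin (d x) → ZMod p
  have hAc : ∀ x, Fintype.card (A x) = p ^ d x := by
    intro x
    simp [A, ZMod.card]
  have hcard : Fintype.card (Fin n) = Fintype.card (VV μ A) := by
    rw [Fintype.card_fin, Fintype.card_sigma, hn]
    refine Finset.sum_congr rfl fun x _ => ?_
    rw [Fintype.card_prod, ZMod.card, hAc]
  let E : Fin n ≃ VV μ A := Fintype.equivOfCardEq hcard
  have hNE2 := ne_map15 (ev15 E) _ _ hne
  rw [Finset.map_univ_equiv] at hNE2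
  have hNE3 : NE (univ : Finset (EV (VV μ A))) (fun S => ¬ Has 𝓕 (toG S)) := by
    have h1 : (fun S : Finset (EV (VV μ A)) => ¬ Has 𝓕 (toG S)) =
        (fun S => ¬ Has 𝓕 (toG (S.map (ev15 E).symm.toEmbedding))) := by
      funext S
      have h1 : toG (S.map (ev15 E).symm.toEmbedding) = (toG S).map E.symm.toEmbedding :=
        toG_map15 E.symm S
      rw [h1]
      apply propext
      rw [not_iff_not]
      exact ⟨fun h => has_mono h ⟨(SimpleGraph.Iso.map E.symm (toG S)).toCopy⟩,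
        fun h => has_mono h ⟨(SimpleGraph.Iso.map E.symm (toG S)).symm.toCopy⟩⟩
    rw [h1]
    exact hNE2
  have hsing : ∀ x, ∃ γ : A x ≃+ A x, ∀ a b : A x, a ≠ 0 → b ≠ 0 → ∃ n : ℕ, γ^[n] a = b :=
    fun x => exists_singer p (d x)
  choose γ hγ using hsing
  have hembA : ∀ x (r : ℕ), r ≤ p ^ d x → Nonempty (Fin r ↪ A x) := by
    intro x r hr
    apply Function.Embedding.nonempty_of_card_le
    rw [Fintype.card_fin, hAc]
    exact hr
  refine gen_identity (A := A) (R := R) h0 hst hcrt γ hγ u hu F' ?_ hR' hR ?_ ?_ p q t ?_ hut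
    (NE_dec _ _ _ _ hNE3)
  · intro x
    rcases hd x with h | h
    · left
      have : IsEmpty (Fin (d x)) := by
        rw [h]
        infer_instance
      exact inferInstanceAs (Subsingleton (Fin (d x) → ZMod p))
    · exact Or.inr (hembA x _ h)
  · intro x hx
    exact hembA x b (hRb x hx)
  · intro x hx
    apply Function.Embedding.nonempty_of_card_le
    rw [Fintype.card_fin, Fintype.card_prod, ZMod.card, hAc]
    exact hRb' x hx
  · intro x a
    funext i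
    show p • a i = 0
    rw [nsmul_eq_mul, CharP.cast_eq_zero, zero_mul]

/-- evasiveness from the general identity -/
theorem evas_gen {n p : ℕ} (q : ℕ) [Fact q.Prime] (hp : p.Prime)
    (h0 : ∀ F ∈ 𝓕, F.2 ≠ ⊥) {b : ℕ} (hst : StableAt 𝓕 b)
    {X : Type} [Fintype X] [DecidableEq X] (μ d : X → ℕ) (R : Finset X)
    (hμ : ∀ x, NeZero (μ x)) (hcop : ∀ x y, x ≠ y → Nat.Coprime (μ x) (μ y))
    (u : ∀ x, (ZMod (μ x))ˣ)
    (hu : ∀ x, ∀ d d' : ZMod (μ x), d ≠ 0 → d' ≠ 0 →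
      ∃ k : ℕ, d' = (u x : ZMod (μ x)) ^ k * d ∨ d' = -((u x : ZMod (μ x)) ^ k * d))
    (t : ℕ) (hut : ∀ x, u x ^ q ^ t = 1)
    (F' : Σ k : ℕ, SimpleGraph (Fin k)) (hF' : F' ∈ 𝓕) (hd : ∀ x, d x = 0 ∨ F'.1 ≤ p ^ d x)
    (hR' : ∀ x, x ∉ R → μ x = 1 ∨ F'.1 ≤ μ x) (hR : ∀ x ∈ R, 2 ≤ μ x)
    (hRb : ∀ x ∈ R, b ≤ p ^ d x) (hRb' : ∀ x, x ∉ R → b ≤ μ x * p ^ d x)
    (hn : n = ∑ x, μ x * p ^ d x) (hn2 : 2 ≤ n)
    (hneq : Lb 𝓕 q ((∏ x ∈ R, (cl q (xi : TY 𝓕) - cl q (J (μ x) (xi : TY 𝓕)))) *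
      cl q (xi : TY 𝓕) ^ (Fintype.card X - R.card)) ≠ 0) :
    Evas (fun G : SimpleGraph (Fin n) => Has 𝓕 G) := by
  intro σ hσ
  by_contra hbad
  have hNE := ne_of_strategy n hn2 (fun G => Has 𝓕 G) σ hσ hbad
  have : Fact p.Prime := ⟨hp⟩
  exact hneq (fin_identity (p := p) (q := q) (h0_of h0) hst μ d R hμ (crt_of_coprime μ hμ hcop)
    u hu t hut ⟨F', hF'⟩ hd hR' hR hRb hRb' n hn hNE)

end Pool.Agent.H23.EW
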