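import Mathlib
import Pool.Agent.H23.EW.Cover

set_option autoImplicit false

/-!
The primes `2 * 3 ^ j + 1` and their units.
-/

namespace Pool.Agent.H23.EW

theorem prime_16 : (2 * 3 ^ 16 + 1).Prime :=
  prime_of_tst 16 2 [0, 1, 2, 3] (by decide) (by decide) (by decide +kernel)

theorem prime_17 : (2 * 3 ^ 17 + 1).Prime :=
  prime_of_tst 17 5 [4] (by decide) (by decide) (by decide +kernel)

theorem prime_30 : (2 * 3 ^ 30 + 1).Prime :=
  prime_of_tst 30 3 [0, 2, 3, 4] (by decide) (by decide) (by decide +kernel)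

theorem prime_54 : (2 * 3 ^ 54 + 1).Prime :=
  prime_of_tst 54 3 [0, 2, 4, 5] (by decide) (by decide) (by decide +kernel)

theorem prime_57 : (2 * 3 ^ 57 + 1).Prime :=
  prime_of_tst 57 3 [3, 4, 5] (by decide) (by decide) (by decide +kernel)

theorem prime_60 : (2 * 3 ^ 60 + 1).Prime :=
  prime_of_tst 60 3 [0, 1, 3, 4, 5] (by decide) (by decide) (by decide +kernel)

theorem prime_65 : (2 * 3 ^ 65 + 1).Prime :=
  prime_of_tst 65 2 [6] (by decide) (by decide) (by decide +kernel)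

theorem prime_132 : (2 * 3 ^ 132 + 1).Prime :=
  prime_of_tst 132 3 [0, 1, 7] (by decide) (by decide) (by decide +kernel)

theorem prime_180 : (2 * 3 ^ 180 + 1).Prime :=
  prime_of_tst 180 5 [0, 1, 4, 5, 7] (by decide) (by decide) (by decide +kernel)

theorem prime_320 : (2 * 3 ^ 320 + 1).Prime :=
  prime_of_tst 320 2 [0, 1, 2, 3, 4, 5, 8] (by decide) (by decide) (by decide +kernel)

theorem prime_696 : (2 * 3 ^ 696 + 1).Prime :=
  prime_of_tst 696 3 [0, 1, 2, 4, 5, 7, 9] (by decide) (by decide) (by decide +kernel)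

theorem prime_782 : (2 * 3 ^ 782 + 1).Prime :=
  prime_of_tst 782 2 [0, 2, 3, 8, 9] (by decide) (by decide) (by decide +kernel)

theorem prime_822 : (2 * 3 ^ 822 + 1).Prime :=
  prime_of_tst 822 3 [0, 2, 4, 5, 8, 9] (by decide) (by decide) (by decide +kernel)

theorem prime_897 : (2 * 3 ^ 897 + 1).Prime :=
  prime_of_tst 897 3 [7, 8, 9] (by decide) (by decide) (by decide +kernel)

theorem prime_1252 : (2 * 3 ^ 1252 + 1).Prime :=
  prime_of_tst 1252 2 [0, 1, 5, 6, 7, 10] (by decide) (by decide) (by decide +kernel)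

theorem prime_1454 : (2 * 3 ^ 1454 + 1).Prime :=
  prime_of_tst 1454 2 [0, 2, 3, 5, 7, 8, 10] (by decide) (by decide) (by decide +kernel)

theorem prime_4217 : (2 * 3 ^ 4217 + 1).Prime :=
  prime_of_tst 4217 2 [3, 4, 5, 6, 12] (by decide) (by decide) (by decide +kernel)

theorem prime_5480 : (2 * 3 ^ 5480 + 1).Prime :=
  prime_of_tst 5480 2 [0, 1, 2, 5, 6, 8, 10, 12] (by decide) (by decide) (by decide +kernel)

theorem prime_6225 : (2 * 3 ^ 6225 + 1).Prime :=
  prime_of_tst 6225 7 [4, 6, 11, 12] (by decide) (by decide) (by decide +kernel)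

theorem prime_7842 : (2 * 3 ^ 7842 + 1).Prime :=
  prime_of_tst 7842 3 [0, 5, 7, 9, 10, 11, 12] (by decide) (by decide) (by decide +kernel)

theorem prime_12096 : (2 * 3 ^ 12096 + 1).Prime :=
  prime_of_tst 12096 3 [0, 1, 2, 3, 4, 5, 8, 9, 10, 11, 13] (by decide) (by decide) (by decide +kernel)

theorem prime_13782 : (2 * 3 ^ 13782 + 1).Prime :=
  prime_of_tst 13782 3 [0, 2, 4, 6, 7, 8, 10, 12, 13] (by decide) (by decide) (by decide +kernel)

theorem prime_17720 : (2 * 3 ^ 17720 + 1).Prime :=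
  prime_of_tst 17720 5 [0, 1, 2, 4, 5, 8, 10, 14] (by decide) (by decide) (by decide +kernel)

theorem prime_JJ (j : ℕ) (hj : j ∈ JJ) : (2 * 3 ^ j + 1).Prime := by
  unfold JJ at hj
  simp only [List.mem_cons, List.not_mem_nil, or_false] at hj
  rcases hj with rfl | rfl | rfl | rfl | rfl | rfl | rfl | rfl | rfl | rfl | rfl | rfl | rfl |
    rfl | rfl | rfl | rfl | rfl | rfl | rfl | rfl | rfl | rfl
  exacts [prime_16, prime_17, prime_30, prime_54, prime_57, prime_60, prime_65, prime_132,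
    prime_180, prime_320, prime_696, prime_782, prime_822, prime_897, prime_1252, prime_1454,
    prime_4217, prime_5480, prime_6225, prime_7842, prime_12096, prime_13782, prime_17720]

theorem le_of_mem_JJ (j : ℕ) (hj : j ∈ JJ) : 16 ≤ j ∧ j ≤ 17720 := by
  unfold JJ at hj
  simp only [List.mem_cons, List.not_mem_nil, or_false] at hj
  omega

/-- a unit of order `3 ^ j` modulo the prime `2 * 3 ^ j + 1` -/
theorem exists_unit (j : ℕ) (hs : (2 * 3 ^ j + 1).Prime) :
    ∃ w : (ZMod (2 * 3 ^ j + 1))ˣ, w ^ 3 ^ j = 1 ∧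
      ∀ d d' : ZMod (2 * 3 ^ j + 1), d ≠ 0 → d' ≠ 0 →
        ∃ k : ℕ, d' = (w : ZMod (2 * 3 ^ j + 1)) ^ k * d ∨
          d' = -((w : ZMod (2 * 3 ^ j + 1)) ^ k * d) := by
  set s := 2 * 3 ^ j + 1 with hsd
  have hfact : Fact s.Prime := ⟨hs⟩
  obtain ⟨g, hg⟩ := IsCyclic.exists_generator (α := (ZMod s)ˣ)
  have hcard : Fintype.card (ZMod s)ˣ = 2 * 3 ^ j := by
    rw [ZMod.card_units s, hsd, Nat.add_sub_cancel]
  have hord : orderOf g = 2 * 3 ^ j := by
    rw [orderOf_eq_card_of_forall_mem_zpowers hg, Nat.card_eq_fintype_card, hcard]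
  have hpow : g ^ (2 * 3 ^ j) = 1 := by
    rw [← hord]
    exact pow_orderOf_eq_one g
  have h3pos : 0 < 3 ^ j := by positivity
  -- the power with exponent `3 ^ j` is `-1`
  have hneg : g ^ 3 ^ j = -1 := by
    have h1 : ((g ^ 3 ^ j : (ZMod s)ˣ) : ZMod s) ^ 2 = 1 := by
      rw [← Units.val_pow_eq_pow_val, ← pow_mul, mul_comm, hpow, Units.val_one]
    have h2 : g ^ 3 ^ j ≠ 1 := by
      intro h2
      have h3 := Nat.le_of_dvd h3pos (orderOf_dvd_of_pow_eq_one h2)
      omega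
    rw [sq] at h1
    rcases mul_self_eq_one_iff.1 h1 with h3 | h3
    · exact absurd (Units.ext (by rw [h3, Units.val_one])) h2
    · exact Units.ext (by rw [h3, Units.val_neg, Units.val_one])
  refine ⟨g ^ 2, ?_, fun d d' hd hd' => ?_⟩
  · rw [← pow_mul, hpow]
  · obtain ⟨n, hn⟩ := (mem_powers_iff_mem_zpowers).2
      (hg (Units.mk0 (d' / d) (div_ne_zero hd' hd)))
    have hn' : (g : ZMod s) ^ n * d = d' := by
      have h2 := congrArg Units.val hn
      simp only [Units.val_pow_eq_pow_val, Units.val_mk0] at h2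
      rw [h2, div_mul_cancel₀ _ hd]
    rcases Nat.even_or_odd' n with ⟨k, rfl | rfl⟩
    · refine ⟨k, Or.inl ?_⟩
      rw [Units.val_pow_eq_pow_val, ← pow_mul, hn']
    · obtain ⟨m, hm⟩ : Odd (3 ^ j) := Odd.pow (by decide)
      refine ⟨k + m + 1, Or.inr ?_⟩
      have h1 : (g : ZMod s) ^ (2 * (k + m + 1)) = -((g : ZMod s) ^ (2 * k + 1)) := by
        have h2 : 2 * (k + m + 1) = 3 ^ j + (2 * k + 1) := by omega
        have h3 : (g : ZMod s) ^ 3 ^ j = -1 := by
          have := congrArg Units.val hneg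
          simpa using this
        rw [h2, pow_add, h3, neg_one_mul]
      rw [Units.val_pow_eq_pow_val, ← pow_mul, h1, neg_mul, neg_neg, hn']

end Pool.Agent.H23.EW
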