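import Mathlib
import Pool.Agent.H23.EW.Fin
import Pool.Agent.H23.EW.Primes

set_option autoImplicit false
set_option linter.unusedSectionVars false

/-!
Containing a member of a family of graphs with at most `2 ^ c` vertices is evasive for all
large numbers of vertices if the sums of different primes `2 * 3 ^ j + 1`, not less than `2 ^ c`,
cover all residue classes modulo `2 ^ c`.
-/

namespace Pool.Agent.H23.EW

open Finset Pool.Agent.H98R2.Ev Pool.Agent.TH410.KV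
open Pool.Agent.H98R2.Nb (Inv Has)
open Pool.Agent.W5h82.Ev (StableAt Evas h0_of Lb_xi_pow)

variable {𝓕 : Pool.Agent.TH410.KV.Fam}

theorem evas_cover (h0 : ∀ F ∈ 𝓕, F.2 ≠ ⊥) {b : ℕ} (hst : StableAt 𝓕 b) (c e m : ℕ)
    (Jl : List ℕ) (hnd : Jl.Nodup) (hpr : ∀ j ∈ Jl, (2 * 3 ^ j + 1).Prime)
    (hlarge : ∀ j ∈ Jl, 2 ^ c ≤ 2 * 3 ^ j + 1) (hfull : rch (2 ^ c) Jl = 2 ^ 2 ^ c - 1)
    (hcm : 2 ^ c ≤ 3 ^ m) (hme : m ≤ 3 ^ e)
    (hb : b ≤ 2 ^ c) (F' : Σ k : ℕ, SimpleGraph (Fin k)) (hF' : F' ∈ 𝓕)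
    (hF'b : F'.1 ≤ 2 ^ c) (n : ℕ)
    (hn : (Jl.map (fun j => 2 * 3 ^ j + 1)).sum + 2 ^ c * (2 * (3 ^ 3 ^ e - 1)) ≤ n) :
    Evas (fun G : SimpleGraph (Fin n) => Has 𝓕 G) := by
  classical
  set Q : ℕ := 3 ^ 3 ^ e - 1 with hQ
  have hQpos : 2 ≤ Q := by
    have h1 : 3 ^ 1 ≤ 3 ^ 3 ^ e :=
      Nat.pow_le_pow_right (by norm_num) (Nat.one_le_pow _ _ (by norm_num))
    omega
  have hcpos : 1 ≤ 2 ^ c := Nat.one_le_two_pow
  set σ₀ : ℕ := (Jl.map (fun j => 2 * 3 ^ j + 1)).sum with hσ₀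
  have hσ₀' : σ₀ = ∑ j ∈ Jl.toFinset, (2 * 3 ^ j + 1) := by
    rw [hσ₀, List.sum_toFinset _ hnd]
  obtain ⟨S, hS, hmod⟩ : ∃ S : Finset ℕ, (∀ j ∈ S, j ∈ Jl) ∧
      ∑ j ∈ S, (2 * 3 ^ j + 1) ≡ n [MOD 2 ^ c] := by
    obtain ⟨S, h1, h2⟩ := rch_spec (2 ^ c) hcpos Jl hnd (n % 2 ^ c)
      (Nat.mod_lt _ hcpos) (by
        rw [hfull, Nat.testBit_two_pow_sub_one]
        exact decide_eq_true (Nat.mod_lt _ hcpos))
    exact ⟨S, h1, h2.trans (Nat.mod_modEq _ _)⟩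
  have hSJ : S ⊆ Jl.toFinset := fun j hj => List.mem_toFinset.2 (hS j hj)
  set σ : ℕ := ∑ j ∈ S, (2 * 3 ^ j + 1) with hσ
  have hσ1 : σ ≤ σ₀ := by
    rw [hσ₀']
    exact Finset.sum_le_sum_of_subset hSJ
  have hσn : σ ≤ n := hσ1.trans ((Nat.le_add_right _ _).trans hn)
  have hdvd : 2 ^ c ∣ n - σ := (Nat.modEq_iff_dvd' hσn).1 hmod
  obtain ⟨T, hT⟩ := hdvd
  have hnT : n = 2 ^ c * T + σ := by omega
  have hT2 : 2 * Q ≤ T := by
    by_contra h
    push Not at h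
    have h1 : 2 ^ c * T < 2 ^ c * (2 * Q) := (Nat.mul_lt_mul_left hcpos).2 h
    omega
  set M₂ := (T + S.card - 1) % Q with hM₂
  have hM₂Q : M₂ < Q := Nat.mod_lt _ (by omega)
  set M := T - M₂ with hM
  have hMM₂ : M + M₂ = T := by omega
  have hle : M₂ ≤ M := by omega
  have hmodQ : M + S.card ≡ 1 [MOD Q] := by
    have h1 : (T + S.card - 1) = M₂ + Q * ((T + S.card - 1) / Q) := by
      rw [hM₂]
      exact (Nat.mod_add_div _ _).symm
    have h2 : M + S.card = 1 + Q * ((T + S.card - 1) / Q) := by omega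
    rw [h2, Nat.ModEq, Nat.add_mul_mod_self_left]
  -- the orbits
  let X : Type := Fin M ⊕ {j // j ∈ S}
  let μ : X → ℕ := Sum.elim (fun _ => 1) (fun j => 2 * 3 ^ j.1 + 1)
  let d : X → ℕ := Sum.elim (fun i => c + (if (i : ℕ) < M₂ then 1 else 0)) (fun _ => 0)
  have hμ : ∀ x, NeZero (μ x) := by
    rintro (i | j)
    · exact ⟨one_ne_zero⟩
    · exact ⟨Nat.succ_ne_zero _⟩
  have hprime : ∀ j : {j // j ∈ S}, (2 * 3 ^ j.1 + 1).Prime := fun j => hpr j.1 (hS j.1 j.2)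
  have hbig : ∀ j : {j // j ∈ S}, 2 ^ c ≤ 2 * 3 ^ j.1 + 1 := fun j => hlarge j.1 (hS j.1 j.2)
  set t₀ : ℕ := ∑ j ∈ S, j with ht₀
  have hex : ∀ x : X, ∃ u : (ZMod (μ x))ˣ, u ^ 3 ^ t₀ = 1 ∧
      ∀ d d' : ZMod (μ x), d ≠ 0 → d' ≠ 0 →
        ∃ k : ℕ, d' = (u : ZMod (μ x)) ^ k * d ∨ d' = -((u : ZMod (μ x)) ^ k * d) := by
    rintro (i | j)
    · refine ⟨1, one_pow _, fun d d' hd => ?_⟩
      exact absurd (Subsingleton.elim (α := ZMod 1) _ _) hd
    · obtain ⟨w, hw1, hw2⟩ := exists_unit j.1 (hprime j)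
      have hw3 : w ^ 3 ^ t₀ = 1 := by
        obtain ⟨e, he⟩ := Nat.exists_eq_add_of_le
          (Finset.single_le_sum (f := fun j : ℕ => j) (fun _ _ => Nat.zero_le _) j.2)
        rw [ht₀, he, pow_add, pow_mul, hw1, one_pow]
      exact ⟨w, hw3, hw2⟩
  choose u hut hu using hex
  have : Fact (Nat.Prime 3) := ⟨Nat.prime_three⟩
  have hcardX : Fintype.card X = M + S.card := by
    rw [Fintype.card_sum, Fintype.card_fin, Fintype.card_coe]
  have hcard2 : F'.1 ≤ 3 ^ m := hF'b.trans hcm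
  refine evas_gen (p := 2) 3 Nat.prime_two h0 hst (X := X) μ d ∅ hμ ?_ u hu t₀ hut F' hF'
    ?_ ?_ ?_ ?_ ?_ ?_ ?_ ?_
  · -- pairwise coprime
    rintro (i | j) (i' | j') hne
    · exact Nat.coprime_one_left _
    · exact Nat.coprime_one_left _
    · exact Nat.coprime_one_right _
    · refine (Nat.coprime_primes (hprime j) (hprime j')).2 ?_
      intro h
      apply hne
      have h1 : 3 ^ j.1 = 3 ^ j'.1 := by omega
      have h2 := Nat.pow_right_injective (le_refl 2 |>.trans (by norm_num : 2 ≤ 3)) h1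
      rw [Subtype.ext h2]
  · rintro (i | j)
    · right
      refine hF'b.trans (Nat.pow_le_pow_right (by norm_num) ?_)
      exact Nat.le_add_right _ _
    · exact Or.inl rfl
  · rintro (i | j) _
    · exact Or.inl rfl
    · exact Or.inr (hF'b.trans (hbig j))
  · intro x hx
    simp at hx
  · intro x hx
    simp at hx
  · rintro (i | j) _
    · show b ≤ 1 * 2 ^ (c + _)
      rw [one_mul]
      exact hb.trans (Nat.pow_le_pow_right (by norm_num) (Nat.le_add_right _ _))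
    · show b ≤ (2 * 3 ^ j.1 + 1) * 2 ^ 0
      rw [pow_zero, mul_one]
      exact hb.trans (hbig j)
  · -- the number of vertices
    rw [Fintype.sum_sum_type]
    have h1 : ∑ i : Fin M, μ (Sum.inl i) * 2 ^ d (Sum.inl i) = 2 ^ c * T := by
      have h2 := Pool.Agent.TH410.KV.size_sum 2 c M M₂ (by norm_num) hle
      have h3 : M + (2 - 1) * M₂ = T := by omega
      rw [h3] at h2
      rw [← h2]
      refine Finset.sum_congr rfl fun i _ => ?_
      show 1 * 2 ^ (c + _) = _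
      rw [one_mul]
    have h2 : ∑ j : {j // j ∈ S}, μ (Sum.inr j) * 2 ^ d (Sum.inr j) = σ := by
      rw [hσ, ← Finset.sum_coe_sort S (fun j => 2 * 3 ^ j + 1)]
      refine Finset.sum_congr rfl fun j _ => ?_
      show (2 * 3 ^ j.1 + 1) * 2 ^ 0 = _
      rw [pow_zero, mul_one]
    rw [h1, h2]
    exact hnT
  · have h1 : 1 * (2 * 2) ≤ 2 ^ c * (2 * Q) := Nat.mul_le_mul hcpos (by omega)
    omega
  · rw [Finset.prod_empty, one_mul, Finset.card_empty, Nat.sub_zero, hcardX]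
    rw [Lb_xi_pow 3 (Or.inr rfl) (h0_of h0) ⟨F', hF'⟩ m e ?_ hme (M + S.card)
      (by omega) hmodQ]
    · exact one_ne_zero
    · refine SimpleGraph.Colorable.mono hcard2 ?_
      have := SimpleGraph.colorable_of_fintype F'.2
      rwa [Fintype.card_fin] at this

theorem evas_large (h0 : ∀ F ∈ 𝓕, F.2 ≠ ⊥) {b : ℕ} (hst : StableAt 𝓕 b)
    (hb : b ≤ 2 ^ 18) (F' : Σ k : ℕ, SimpleGraph (Fin k)) (hF' : F' ∈ 𝓕)
    (hF'b : F'.1 ≤ 2 ^ 18) (n N : ℕ) (hN : N = 3 ^ 17721) (hn : N ≤ n) :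
    Evas (fun G : SimpleGraph (Fin n) => Has 𝓕 G) := by
  refine evas_cover h0 hst 18 3 12 JJ (by decide) prime_JJ ?_ rch_full (by norm_num)
    (by norm_num) hb F' hF' hF'b n ((?_ : _ ≤ N).trans hn)
  · intro j hj
    have h1 := (le_of_mem_JJ j hj).1
    have h2 : 3 ^ 16 ≤ 3 ^ j := Nat.pow_le_pow_right (by norm_num) h1
    have h3 : 2 ^ 18 ≤ 3 ^ 16 := by norm_num
    omega
  · rw [hN]
    exact Nat.le_of_ble_eq_true (by decide +kernel)

/-- the list of the small exponents -/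
def JS : List ℕ := [2, 4, 5, 6, 9]

theorem evas_tiny (h0 : ∀ F ∈ 𝓕, F.2 ≠ ⊥) {b : ℕ} (hst : StableAt 𝓕 b)
    (hb : b ≤ 8) (F' : Σ k : ℕ, SimpleGraph (Fin k)) (hF' : F' ∈ 𝓕)
    (hF'b : F'.1 ≤ 8) (n : ℕ) (hn : 42000 ≤ n) :
    Evas (fun G : SimpleGraph (Fin n) => Has 𝓕 G) := by
  refine evas_cover h0 hst 3 1 2 JS (by decide) ?_ ?_ (by decide +kernel) (by norm_num)
    (by norm_num) hb F' hF' hF'b n ((?_ : _ ≤ 42000).trans hn)
  · intro j hj
    unfold JS at hj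
    simp only [List.mem_cons, List.not_mem_nil, or_false] at hj
    rcases hj with rfl | rfl | rfl | rfl | rfl <;> norm_num
  · intro j hj
    unfold JS at hj
    simp only [List.mem_cons, List.not_mem_nil, or_false] at hj
    rcases hj with rfl | rfl | rfl | rfl | rfl <;> norm_num
  · exact Nat.le_of_ble_eq_true (by decide +kernel)

/-- the list of the smallest exponents -/
def JT : List ℕ := [1, 2, 4]

theorem evas_four (h0 : ∀ F ∈ 𝓕, F.2 ≠ ⊥) {b : ℕ} (hst : StableAt 𝓕 b)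
    (hb : b ≤ 4) (F' : Σ k : ℕ, SimpleGraph (Fin k)) (hF' : F' ∈ 𝓕)
    (hF'b : F'.1 ≤ 4) (n : ℕ) (hn : 400 ≤ n) :
    Evas (fun G : SimpleGraph (Fin n) => Has 𝓕 G) := by
  refine evas_cover h0 hst 2 1 2 JT (by decide) ?_ ?_ (by decide +kernel) (by norm_num)
    (by norm_num) hb F' hF' hF'b n ((?_ : _ ≤ 400).trans hn)
  · intro j hj
    unfold JT at hj
    simp only [List.mem_cons, List.not_mem_nil, or_false] at hj
    rcases hj with rfl | rfl | rfl <;> norm_num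
  · intro j hj
    unfold JT at hj
    simp only [List.mem_cons, List.not_mem_nil, or_false] at hj
    rcases hj with rfl | rfl | rfl <;> norm_num
  · exact Nat.le_of_ble_eq_true (by decide +kernel)

end Pool.Agent.H23.EW
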